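import Mathlib

set_option autoImplicit false
set_option linter.unusedSectionVars false
open MeasureTheory Set Filter Topology
open scoped ENNReal

namespace Pool.Agent.H452R3.HR

section

variable {α : Type*} [TopologicalSpace α] [T2Space α] [MeasurableSpace α] [BorelSpace α]
  {μ : Measure α} [μ.OuterRegular]

lemma step_image (f : (ℕ → ℕ) → α) (T : Set (ℕ → ℕ)) (k : ℕ) {a : ℝ≥0∞} (h : a < μ (f '' T)) :
    ∃ n : ℕ, a < μ (f '' (T ∩ {x | x k ≤ n})) := by
  have h1 : f '' T = ⋃ n : ℕ, f '' (T ∩ {x | x k ≤ n}) := by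
    rw [← Set.image_iUnion, ← Set.inter_iUnion]
    congr 1
    have : (⋃ n : ℕ, {x : ℕ → ℕ | x k ≤ n}) = Set.univ := by
      ext x
      simp only [Set.mem_iUnion, Set.mem_univ, iff_true]
      exact ⟨x k, le_refl (x k)⟩
    rw [this, Set.inter_univ]
  have hd : Directed (· ⊆ ·) fun n : ℕ => f '' (T ∩ {x | x k ≤ n}) := by
    refine Monotone.directed_le ?_
    intro n n' hn
    refine Set.image_mono (Set.inter_subset_inter_right _ ?_)
    intro x hx
    exact le_trans (show x k ≤ n from hx) hn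
  rw [h1, hd.measure_iUnion] at h
  exact lt_iSup_iff.1 h

theorem exists_compact_of_analytic {f : (ℕ → ℕ) → α} (hf : Continuous f) {a : ℝ≥0∞}
    (h : a < μ (range f)) : ∃ K ⊆ range f, IsCompact K ∧ a ≤ μ K := by
  classical
  -- recursive construction
  let S : ℕ → {T : Set (ℕ → ℕ) // a < μ (f '' T)} := fun k =>
    Nat.rec (motive := fun _ => {T : Set (ℕ → ℕ) // a < μ (f '' T)})
      ⟨Set.univ, by rwa [Set.image_univ]⟩
      (fun k T => ⟨T.1 ∩ {x | x k ≤ (step_image f T.1 k T.2).choose},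
        (step_image f T.1 k T.2).choose_spec⟩) k
  let n : ℕ → ℕ := fun k => (step_image f (S k).1 k (S k).2).choose
  have hS : ∀ k, (S (k + 1)).1 = (S k).1 ∩ {x | x k ≤ n k} := fun k => rfl
  have hS' : ∀ k, (S k).1 = {x | ∀ i < k, x i ≤ n i} := by
    intro k
    induction k with
    | zero => ext x; simp [S]
    | succ k ih =>
      rw [hS, ih]
      ext x
      constructor
      · rintro ⟨h1, h2⟩ i hi
        rcases Nat.lt_succ_iff_lt_or_eq.1 hi with h3 | h3
        · exact h1 i h3
        · rw [h3]; exact h2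
      · intro h1
        exact ⟨fun i hi => h1 i (by omega), h1 k (by omega)⟩
  set Kc : Set (ℕ → ℕ) := Set.pi Set.univ fun i => Set.Iic (n i) with hKc
  have hKcc : IsCompact Kc := isCompact_univ_pi fun i => (Set.finite_Iic (n i)).isCompact
  refine ⟨f '' Kc, Set.image_subset_range _ _, hKcc.image hf, ?_⟩
  rw [Set.measure_eq_iInf_isOpen (f '' Kc) μ]
  refine le_iInf₂ fun O hO => le_iInf fun hOo => ?_
  -- some stage is inside O
  have hstage : ∃ k, f '' (S k).1 ⊆ O := by
    by_contra hcon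
    push Not at hcon
    have h1 : ∀ k, ∃ x : ℕ → ℕ, (∀ i < k, x i ≤ n i) ∧ f x ∉ O := by
      intro k
      obtain ⟨y, ⟨x, hx, rfl⟩, hy⟩ := Set.not_subset.1 (hcon k)
      rw [hS'] at hx
      exact ⟨x, hx, hy⟩
    choose x hx hxO using h1
    let y : ℕ → (ℕ → ℕ) := fun k i => min (x k i) (n i)
    have hy : ∀ k, y k ∈ Kc := by
      intro k i _
      exact (min_le_right (x k i) (n i) : min (x k i) (n i) ≤ n i)
    obtain ⟨z, hz, φ, hφ, hlim⟩ := hKcc.tendsto_subseq hy
    have hxlim : Tendsto (fun k => x (φ k)) atTop (𝓝 z) := by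
      rw [tendsto_pi_nhds] at hlim ⊢
      intro i
      refine (hlim i).congr' ?_
      filter_upwards [eventually_gt_atTop i] with k hk
      have h2 : i < φ k := lt_of_lt_of_le hk (hφ.id_le k)
      have h3 := hx (φ k) i h2
      show min (x (φ k) i) (n i) = x (φ k) i
      exact min_eq_left h3
    have h4 : Tendsto (fun k => f (x (φ k))) atTop (𝓝 (f z)) := (hf.tendsto z).comp hxlim
    have h5 : f z ∈ O := hO ⟨z, hz, rfl⟩
    have h6 := h4 (hOo.mem_nhds h5)
    obtain ⟨k, hk⟩ := (Filter.Eventually.exists h6 : ∃ k, f (x (φ k)) ∈ O)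
    exact hxO _ hk
  obtain ⟨k, hk⟩ := hstage
  exact (S k).2.le.trans (measure_mono hk)

theorem nullMeasurable_of_analytic [IsFiniteMeasure μ] {A : Set α} (hA : AnalyticSet A) :
    NullMeasurableSet A μ := by
  rw [AnalyticSet] at hA
  rcases hA with rfl | ⟨f, hf, rfl⟩
  · exact MeasurableSet.empty.nullMeasurableSet
  by_cases h0 : μ (range f) = 0
  · exact NullMeasurableSet.of_null h0
  have h1 : ∀ k : ℕ, ∃ K ⊆ range f, IsCompact K ∧ μ (range f) - ((k : ℝ≥0∞) + 1)⁻¹ ≤ μ K := by
    intro k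
    refine exists_compact_of_analytic hf ?_
    exact ENNReal.sub_lt_self (measure_ne_top _ _) h0 (by simp)
  choose K hK hKc hKμ using h1
  set B : Set α := ⋃ k, K k with hB
  have hBm : MeasurableSet B := MeasurableSet.iUnion fun k => (hKc k).measurableSet
  have hBsub : B ⊆ range f := Set.iUnion_subset hK
  have hBμ : μ (range f) ≤ μ B := by
    have h2 : ∀ k : ℕ, μ (range f) ≤ μ B + ((k : ℝ≥0∞) + 1)⁻¹ := by
      intro k
      have := (hKμ k).trans (measure_mono (Set.subset_iUnion K k))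
      exact tsub_le_iff_right.1 this
    have h3 : Tendsto (fun k : ℕ => μ B + ((k : ℝ≥0∞) + 1)⁻¹) atTop (𝓝 (μ B + 0)) := by
      refine tendsto_const_nhds.add ?_
      have : Tendsto (fun n : ℕ => ((n : ℝ≥0∞) + 1)) atTop (𝓝 ⊤) := by
        have h5 : Tendsto (fun n : ℕ => ((n + 1 : ℕ) : ℝ≥0∞)) atTop (𝓝 ⊤) :=
          ENNReal.tendsto_nat_nhds_top.comp (tendsto_add_atTop_nat 1)
        simpa using h5
      have h6 := tendsto_inv_iff.2 this
      simpa using h6
    rw [add_zero] at h3
    exact ge_of_tendsto' h3 h2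
  -- compare with the measurable hull
  set T := toMeasurable μ (range f) with hT
  have hTB : μ (T \ B) = 0 := by
    rw [measure_sdiff (hBsub.trans (subset_toMeasurable _ _)) hBm.nullMeasurableSet
      (measure_ne_top _ _), measure_toMeasurable]
    exact tsub_eq_zero_of_le hBμ
  refine ⟨B, hBm, ?_⟩
  refine Filter.EventuallyEq.symm ?_
  rw [ae_eq_set]
  constructor
  · rw [Set.sdiff_eq_empty.2 hBsub, measure_empty]
  · refine measure_mono_null ?_ hTB
    exact Set.sdiff_subset_sdiff_left (subset_toMeasurable _ _)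

end

end Pool.Agent.H452R3.HR
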