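import Pool.Agent.H452R3.HR.CI

set_option autoImplicit false
set_option linter.unusedSectionVars false
open MeasureTheory Set Filter Topology
open scoped ENNReal

namespace Pool.Agent.H452R3.HR

/-- arrays indexed by `r`-tuples of natural numbers -/
abbrev Arr (r : ℕ) := (Fin r → ℕ) → Bool

variable {r : ℕ}

/-- the σ-algebra generated by the coordinates in `A` -/
@[reducible] def Alg (A : Set (Fin r → ℕ)) : MeasurableSpace (Arr r) :=
  ⨆ s ∈ A, MeasurableSpace.comap (fun R : Arr r => R s) ⊤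

lemma Alg_mono {A B : Set (Fin r → ℕ)} (h : A ⊆ B) : Alg A ≤ Alg B := biSup_mono h

lemma Alg_le (A : Set (Fin r → ℕ)) : Alg A ≤ (MeasurableSpace.pi : MeasurableSpace (Arr r)) :=
  iSup₂_le fun s _ => (measurable_pi_apply s).comap_le

lemma meas_eval {A : Set (Fin r → ℕ)} {s : Fin r → ℕ} (hs : s ∈ A) :
    Measurable[Alg A] (fun R : Arr r => R s) := by
  rw [measurable_iff_comap_le]
  exact le_iSup₂_of_le (f := fun s (_ : s ∈ A) => MeasurableSpace.comap (fun R : Arr r => R s) ⊤)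
    s hs le_rfl

lemma meas_to_Alg {mB : MeasurableSpace (Arr r)} {A : Set (Fin r → ℕ)} {T : Arr r → Arr r}
    (h : ∀ s ∈ A, Measurable[mB] (fun R => T R s)) : @Measurable _ _ mB (Alg A) T := by
  rw [measurable_iff_comap_le, Alg, MeasurableSpace.comap_iSup]
  refine iSup_le fun s => ?_
  rw [MeasurableSpace.comap_iSup]
  refine iSup_le fun hs => ?_
  rw [MeasurableSpace.comap_comp]
  exact (h s hs).comap_le

lemma Alg_congr {B : Set (Fin r → ℕ)} {G : Set (Arr r)} (hG : MeasurableSet[Alg B] G)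
    {R R' : Arr r} (h : ∀ s ∈ B, R s = R' s) : R ∈ G ↔ R' ∈ G := by
  have h1 : Alg B ≤ MeasurableSpace.comap (fun (R : Arr r) (s : B) => R s) ⊤ := by
    refine iSup₂_le fun s hs => ?_
    intro A hA
    obtain ⟨A', _, rfl⟩ := hA
    exact ⟨(fun (f : B → Bool) => f ⟨s, hs⟩) ⁻¹' A', trivial, rfl⟩
  obtain ⟨G', _, rfl⟩ := h1 _ hG
  have : (fun (s : B) => R s) = fun (s : B) => R' s := funext fun s => h s s.2
  simp only [Set.mem_preimage, this]

/-- reindexing of arrays -/
def shift (σ : ℕ → ℕ) (R : Arr r) : Arr r := fun s => R (σ ∘ s)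

lemma measurable_shift (σ : ℕ → ℕ) : Measurable (shift (r := r) σ) :=
  measurable_pi_lambda _ fun s => measurable_pi_apply (σ ∘ s)

/-- the set of special indices (those `< m`) used by `s` -/
def tr (m : ℕ) (s : Fin r → ℕ) : Finset ℕ := (Finset.univ.image s).filter (· < m)

lemma mem_tr {m : ℕ} {s : Fin r → ℕ} {i : ℕ} : i ∈ tr m s ↔ (∃ a, s a = i) ∧ i < m := by
  simp [tr]

/-- tuples using only special indices in `f` -/
def U (m : ℕ) (f : Finset ℕ) : Set (Fin r → ℕ) := {s | ∀ a, s a ∈ f ∨ m ≤ s a}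

lemma U_mono {m : ℕ} {f f' : Finset ℕ} (h : f ⊆ f') : U (r := r) m f ⊆ U m f' := by
  intro s hs a
  rcases hs a with h1 | h1
  · exact Or.inl (h h1)
  · exact Or.inr h1

lemma mem_U_tr (m : ℕ) (s : Fin r → ℕ) : s ∈ U m (tr m s) := by
  intro a
  by_cases h : s a < m
  · exact Or.inl (mem_tr.2 ⟨⟨a, rfl⟩, h⟩)
  · exact Or.inr (not_lt.1 h)

/-- tuples of level `< j` -/
def L (m j : ℕ) : Set (Fin r → ℕ) := {s | (tr m s).card < j}

/-- the reindexing used for conditional independence -/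
def sg (m : ℕ) (f : Finset ℕ) (n : ℕ) (i : ℕ) : ℕ :=
  if i ∈ f ∨ (m ≤ i ∧ i < n) then i else i + n

lemma sg_inj {m : ℕ} {f : Finset ℕ} (hf : ∀ i ∈ f, i < m) {n : ℕ} (hn : m ≤ n) :
    Function.Injective (sg m f n) := by
  intro i j h
  unfold sg at h
  split_ifs at h with h1 h2 h2
  · exact h
  · exfalso
    rcases h1 with h1 | h1
    · have := hf _ h1; omega
    · omega
  · exfalso
    rcases h2 with h2 | h2
    · have := hf _ h2; omega
    · omega
  · omega

lemma sg_mem_U {m : ℕ} {f : Finset ℕ} {n : ℕ} (hn : m ≤ n) (s : Fin r → ℕ) :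
    sg m f n ∘ s ∈ U m f := by
  intro a
  simp only [Function.comp, sg]
  split_ifs with h
  · rcases h with h | h
    · exact Or.inl h
    · exact Or.inr h.1
  · right; omega

lemma tr_sg {m : ℕ} {f : Finset ℕ} {n : ℕ} (hn : m ≤ n) (s : Fin r → ℕ) :
    tr m (sg m f n ∘ s) ⊆ (tr m s).filter (· ∈ f) := by
  intro i hi
  obtain ⟨⟨a, ha⟩, him⟩ := mem_tr.1 hi
  simp only [Function.comp, sg] at ha
  rw [Finset.mem_filter]
  split_ifs at ha with h
  · rcases h with h | h
    · rw [ha] at h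
      exact ⟨mem_tr.2 ⟨⟨a, ha⟩, him⟩, h⟩
    · omega
  · omega

/-- coordinates fixed by `sg` -/
def Fx (m : ℕ) (f : Finset ℕ) (n : ℕ) : Set (Fin r → ℕ) :=
  {s | ∀ a, s a ∈ f ∨ (m ≤ s a ∧ s a < n)}

lemma sg_Fx {m : ℕ} {f : Finset ℕ} {n : ℕ} {s : Fin r → ℕ} (hs : s ∈ Fx m f n) :
    sg m f n ∘ s = s := by
  funext a
  simp only [Function.comp, sg]
  rw [if_pos (hs a)]

theorem CI {m : ℕ} {f : Finset ℕ} (hf : ∀ i ∈ f, i < m) {P : Measure (Arr r)}
    [IsProbabilityMeasure P]
    (hinv : ∀ σ : ℕ → ℕ, Function.Injective σ → P.map (shift σ) = P)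
    {A : Set (Fin r → ℕ)} {n0 : ℕ} (hA : ∀ n, n0 ≤ n → ∀ s ∈ A, sg m f n ∘ s ∈ A)
    {G V : Set (Arr r)} (hG : MeasurableSet[Alg (U m f)] G) (hV : MeasurableSet[Alg A] V) :
    P.real (V ∩ G) = ∫ R in V, (P[ind G | Alg (A ∩ U m f)]) R ∂P := by
  refine ci_ext (𝒢 := Alg A) (𝒢' := Alg (A ∩ U m f)) (Alg_le _) (Alg_le _)
    (𝓕 := fun n => Alg (Fx m f (n + (n0 + m)))) ?_ (fun n => Alg_le _) ?_ ?_ hV
  · intro a b hab
    refine Alg_mono ?_
    intro s hs x
    rcases hs x with h | h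
    · exact Or.inl h
    · exact Or.inr ⟨h.1, by omega⟩
  · intro n G hG
    have hm : m ≤ n + (n0 + m) := by omega
    refine ci_core (T := shift (sg m f (n + (n0 + m)))) (Alg_mono Set.inter_subset_left)
      (Alg_le _) ⟨measurable_shift _, hinv _ (sg_inj hf hm)⟩ ?_ (Alg_le _ _ hG) ?_
    · refine meas_to_Alg fun s hs => ?_
      exact meas_eval ⟨hA _ (by omega) s hs, sg_mem_U hm s⟩
    · ext R
      rw [Set.mem_preimage]
      refine Alg_congr hG fun s hs => ?_
      simp only [shift]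
      rw [sg_Fx hs]
  · have : Alg (U m f) ≤ ⨆ n, Alg (Fx (r := r) m f (n + (n0 + m))) := by
      refine iSup₂_le fun s hs => ?_
      obtain ⟨N, hN⟩ : ∃ N, ∀ a, s a < N := by
        refine ⟨(Finset.univ.sup s) + 1, fun a => ?_⟩
        have := Finset.le_sup (f := s) (Finset.mem_univ a)
        omega
      refine le_iSup_of_le N ?_
      refine (meas_eval (A := Fx m f (N + (n0 + m))) (s := s) ?_).comap_le
      intro a
      rcases hs a with h | h
      · exact Or.inl h
      · exact Or.inr ⟨h, by have := hN a; omega⟩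
    exact this _ hG

lemma stable {m j : ℕ} (f : Finset ℕ) (B : Finset (Fin r → ℕ))
    (hB : ∀ s ∈ B, (tr m s).card = j) :
    ∃ n0, ∀ n, n0 ≤ n → ∀ s ∈ L (r := r) m j ∪ (B : Set (Fin r → ℕ)),
      sg m f n ∘ s ∈ L (r := r) m j ∪ (B : Set (Fin r → ℕ)) := by
  refine ⟨m + ((B.sup fun s => Finset.univ.sup s) + 1), fun n hn s hs => ?_⟩
  have hm : m ≤ n := by omega
  have h1 := Finset.card_le_card (tr_sg (f := f) hm s)
  rcases hs with hs | hs
  · left
    have h2 : ((tr m s).filter (· ∈ f)).card ≤ (tr m s).card := Finset.card_filter_le _ _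
    have h3 : (tr m s).card < j := hs
    show (tr m (sg m f n ∘ s)).card < j
    omega
  · have hsB : s ∈ B := hs
    by_cases hsub : tr m s ⊆ f
    · right
      have : sg m f n ∘ s = s := by
        apply sg_Fx
        intro a
        by_cases ha : s a < m
        · exact Or.inl (hsub (mem_tr.2 ⟨⟨a, rfl⟩, ha⟩))
        · right
          refine ⟨not_lt.1 ha, ?_⟩
          have h4 := Finset.le_sup (f := s) (Finset.mem_univ a)
          have h5 := Finset.le_sup (f := fun s : Fin r → ℕ => Finset.univ.sup s) hsB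
          omega
      rw [this]
      exact hs
    · left
      have h2 : (tr m s).filter (· ∈ f) ⊂ tr m s := by
        refine (Finset.filter_subset _ _).ssubset_of_ne ?_
        intro h
        apply hsub
        intro i hi
        rw [← h] at hi
        exact (Finset.mem_filter.1 hi).2
      have h3 := Finset.card_lt_card h2
      have h4 := hB s hsB
      show (tr m (sg m f n ∘ s)).card < j
      omega

/-- the special indices in the range of `t` -/
def rg {m : ℕ} (t : Fin r ↪o Fin m) : Finset ℕ := Finset.univ.image fun a => (t a : ℕ)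

lemma rg_lt {m : ℕ} (t : Fin r ↪o Fin m) : ∀ i ∈ rg t, i < m := by
  intro i hi
  obtain ⟨a, _, rfl⟩ := Finset.mem_image.1 hi
  exact (t a).2

lemma exists_t {m j : ℕ} (hj : j ≤ r) (hr : r ≤ m) {e : Finset ℕ} (he : ∀ i ∈ e, i < m)
    (hc : e.card = j) : ∃ t : Fin r ↪o Fin m, e ⊆ rg t := by
  have h1 : e ⊆ Finset.range m := fun i hi => Finset.mem_range.2 (he i hi)
  obtain ⟨e', h2, h3, h4⟩ := Finset.exists_subsuperset_card_eq h1 (n := r) (by omega)
    (by simpa using hr)
  refine ⟨OrderEmbedding.ofStrictMono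
    (fun a => ⟨e'.orderEmbOfFin h4 a, Finset.mem_range.1 (h3 (Finset.orderEmbOfFin_mem _ _ _))⟩)
    ?_, ?_⟩
  · intro a b hab
    simp only [Fin.mk_lt_mk]
    exact (e'.orderEmbOfFin h4).strictMono hab
  · intro i hi
    have : i ∈ Set.range (e'.orderEmbOfFin h4) := by
      rw [Finset.range_orderEmbOfFin]; exact h2 hi
    obtain ⟨a, ha⟩ := this
    exact Finset.mem_image.2 ⟨a, Finset.mem_univ _, ha⟩

end Pool.Agent.H452R3.HR
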