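import Mathlib

set_option autoImplicit false
open MeasureTheory Set Filter Topology
open scoped ENNReal

namespace Pool.Agent.H452R3.HR

section core

set_option linter.unusedSectionVars false
variable {Ω : Type*} {𝒢 𝒢' : MeasurableSpace Ω} {m0 : MeasurableSpace Ω} {P : Measure Ω}
  [IsProbabilityMeasure P]

/-- real indicator -/
noncomputable def ind (G : Set Ω) : Ω → ℝ := G.indicator (fun _ => (1 : ℝ))

lemma ind_nonneg (G : Set Ω) (x : Ω) : 0 ≤ ind G x := by
  unfold ind; exact Set.indicator_nonneg (fun _ _ => zero_le_one) _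

lemma ind_le_one (G : Set Ω) (x : Ω) : ind G x ≤ 1 := by
  unfold ind
  exact Set.indicator_le_self' (fun _ _ => zero_le_one) x

lemma integrable_ind {G : Set Ω} (hG : MeasurableSet G) : Integrable (ind G) P :=
  (integrable_const (1 : ℝ)).indicator hG

lemma ce_nonneg (G : Set Ω) : 0 ≤ᵐ[P] P[ind G | 𝒢] :=
  condExp_nonneg (ae_of_all _ (ind_nonneg G))

lemma ce_le_one {G : Set Ω} (hG : MeasurableSet G) (h : 𝒢 ≤ m0) :
    P[ind G | 𝒢] ≤ᵐ[P] fun _ => (1 : ℝ) := by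
  have h1 : P[ind G | 𝒢] ≤ᵐ[P] P[fun _ => (1 : ℝ) | 𝒢] :=
    condExp_mono (integrable_ind hG) (integrable_const _) (ae_of_all _ (ind_le_one G))
  rwa [condExp_const h] at h1

lemma ce_bdd {G : Set Ω} (hG : MeasurableSet G) (h : 𝒢 ≤ m0) :
    ∀ᵐ x ∂P, ‖(P[ind G | 𝒢]) x‖ ≤ 1 := by
  filter_upwards [ce_nonneg (𝒢 := 𝒢) (P := P) G, ce_le_one (P := P) hG h] with x h1 h2
  rw [Real.norm_eq_abs, abs_of_nonneg h1]
  exact h2

lemma ind_bdd (G : Set Ω) : ∀ᵐ x ∂P, ‖ind G x‖ ≤ 1 := by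
  refine ae_of_all _ fun x => ?_
  rw [Real.norm_eq_abs, abs_of_nonneg (ind_nonneg G x)]
  exact ind_le_one G x

/-- product of a bounded measurable and integrable -/
lemma integrable_mul {f g : Ω → ℝ} (hf : AEStronglyMeasurable f P) (hf1 : ∀ᵐ x ∂P, ‖f x‖ ≤ 1)
    (hg : Integrable g P) : Integrable (f * g) P :=
  hg.bdd_mul hf hf1

/-- pull-out -/
lemma pull (h : 𝒢 ≤ m0) {f : Ω → ℝ} (hf : StronglyMeasurable[𝒢] f)
    (hf1 : ∀ᵐ x ∂P, ‖f x‖ ≤ 1) {g : Ω → ℝ} (hg : Integrable g P) :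
    ∫ x, f x * g x ∂P = ∫ x, f x * (P[g | 𝒢]) x ∂P := by
  have hi : Integrable (f * g) P :=
    integrable_mul (hf.mono h).aestronglyMeasurable hf1 hg
  have h1 := condExp_mul_of_stronglyMeasurable_left hf hi hg
  have h2 := integral_condExp (μ := P) (f := f * g) h
  have h3 : ∫ x, (P[f * g | 𝒢]) x ∂P = ∫ x, (f * P[g | 𝒢]) x ∂P := integral_congr_ae h1
  calc ∫ x, f x * g x ∂P = ∫ x, (P[f * g | 𝒢]) x ∂P := h2.symm
    _ = _ := h3

theorem ci_core (h' : 𝒢' ≤ 𝒢) (h0 : 𝒢 ≤ m0) {T : Ω → Ω}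
    (hT : MeasurePreserving T P P) (hT' : @Measurable _ _ 𝒢' 𝒢 T) {G : Set Ω}
    (hG : MeasurableSet G) (hTG : T ⁻¹' G = G) :
    P[ind G | 𝒢] =ᵐ[P] P[ind G | 𝒢'] := by
  have h0' : 𝒢' ≤ m0 := h'.trans h0
  set Y : Ω → ℝ := P[ind G | 𝒢] with hY
  set Z : Ω → ℝ := P[ind G | 𝒢'] with hZ
  have iG : Integrable (ind G) P := integrable_ind hG
  have sY : StronglyMeasurable[𝒢] Y := stronglyMeasurable_condExp
  have sZ : StronglyMeasurable[𝒢'] Z := stronglyMeasurable_condExp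
  have bY : ∀ᵐ x ∂P, ‖Y x‖ ≤ 1 := ce_bdd hG h0
  have bZ : ∀ᵐ x ∂P, ‖Z x‖ ≤ 1 := ce_bdd hG h0'
  have iY : Integrable Y P := integrable_condExp
  have iZ : Integrable Z P := integrable_condExp
  have sYT : StronglyMeasurable[𝒢'] (Y ∘ T) := sY.comp_measurable hT'
  have bYT : ∀ᵐ x ∂P, ‖(Y ∘ T) x‖ ≤ 1 := by
    have := hT.quasiMeasurePreserving.ae bY
    exact this
  have iYT : Integrable (Y ∘ T) P := by
    refine Integrable.of_bound (sYT.mono h0').aestronglyMeasurable 1 bYT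
  have mY := (sY.mono h0).aestronglyMeasurable (μ := P)
  have mZ := (sZ.mono h0').aestronglyMeasurable (μ := P)
  have mYT := (sYT.mono h0').aestronglyMeasurable (μ := P)
  have iYY : Integrable (Y * Y) P := integrable_mul mY bY iY
  have iZZ : Integrable (Z * Z) P := integrable_mul mZ bZ iZ
  have iZY : Integrable (Z * Y) P := integrable_mul mZ bZ iY
  have iYTYT : Integrable ((Y ∘ T) * (Y ∘ T)) P := integrable_mul mYT bYT iYT
  have iYTZ : Integrable ((Y ∘ T) * Z) P := integrable_mul mYT bYT iZ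
  -- ∫ Y Y = ∫ Y 1_G
  have e1 : ∫ x, Y x * ind G x ∂P = ∫ x, Y x * Y x ∂P := pull h0 sY bY iG
  have e2 : ∫ x, Y (T x) * ind G x ∂P = ∫ x, Y (T x) * Z x ∂P := pull h0' sYT bYT iG
  have indT : ∀ x, ind G (T x) = ind G x := by
    intro x
    have : T x ∈ G ↔ x ∈ G := by
      constructor
      · intro hx
        have : x ∈ T ⁻¹' G := hx
        rwa [hTG] at this
      · intro hx
        rw [← hTG] at hx
        exact hx
    unfold ind
    by_cases hx : x ∈ G
    · rw [Set.indicator_of_mem hx, Set.indicator_of_mem (this.2 hx)]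
    · rw [Set.indicator_of_notMem hx, Set.indicator_of_notMem (fun h => hx (this.1 h))]
  have mind : AEStronglyMeasurable (ind G) P := iG.aestronglyMeasurable
  have e3 : ∫ x, Y x * ind G x ∂P = ∫ x, Y (T x) * ind G x ∂P := by
    have hm : AEStronglyMeasurable (fun x => Y x * ind G x) (P.map T) := by
      rw [hT.map_eq]; exact mY.mul mind
    have := integral_map hT.measurable.aemeasurable hm
    rw [hT.map_eq] at this
    rw [this]
    refine integral_congr_ae (ae_of_all _ fun x => ?_)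
    simp only [indT]
  have e4 : ∫ x, Y x * Y x ∂P = ∫ x, Y (T x) * Y (T x) ∂P := by
    have hm : AEStronglyMeasurable (fun x => Y x * Y x) (P.map T) := by
      rw [hT.map_eq]; exact mY.mul mY
    have := integral_map hT.measurable.aemeasurable hm
    rw [hT.map_eq] at this
    rw [this]
  have e5 : ∫ x, Z x * ind G x ∂P = ∫ x, Z x * Z x ∂P := pull h0' sZ bZ iG
  have e6 : ∫ x, Z x * ind G x ∂P = ∫ x, Z x * Y x ∂P := pull h0 (sZ.mono h') bZ iG
  -- AM-GM
  have e7 : ∫ x, Y (T x) * Z x ∂P ≤ ∫ x, (Y (T x) * Y (T x) + Z x * Z x) / 2 ∂P := by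
    refine integral_mono iYTZ ((iYTYT.add iZZ).div_const 2) fun x => ?_
    simp only
    nlinarith [sq_nonneg (Y (T x) - Z x)]
  have e8 : ∫ x, (Y (T x) * Y (T x) + Z x * Z x) / 2 ∂P
      = ((∫ x, Y (T x) * Y (T x) ∂P) + ∫ x, Z x * Z x ∂P) / 2 := by
    rw [integral_div]
    congr 1
    exact integral_add iYTYT iZZ
  have e9 : ∫ x, Y x * Y x ∂P ≤ ∫ x, Z x * Z x ∂P := by
    rw [e8, ← e4, ← e2, ← e3, e1] at e7
    linarith
  have e10 : ∫ x, (Y x - Z x) * (Y x - Z x) ∂P ≤ 0 := by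
    have : ∫ x, (Y x - Z x) * (Y x - Z x) ∂P
        = ∫ x, Y x * Y x ∂P - 2 * ∫ x, Z x * Y x ∂P + ∫ x, Z x * Z x ∂P := by
      have h1 : (fun x => (Y x - Z x) * (Y x - Z x))
          = fun x => (Y x * Y x - 2 * (Z x * Y x)) + Z x * Z x := by
        funext x; ring
      rw [h1]
      have h2 : ∫ x, (Y x * Y x - 2 * (Z x * Y x)) + Z x * Z x ∂P
          = ∫ x, (Y x * Y x - 2 * (Z x * Y x)) ∂P + ∫ x, Z x * Z x ∂P :=
        integral_add (iYY.sub (iZY.const_mul 2)) iZZ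
      rw [h2]
      have h3 : ∫ x, (Y x * Y x - 2 * (Z x * Y x)) ∂P
          = ∫ x, Y x * Y x ∂P - ∫ x, 2 * (Z x * Y x) ∂P :=
        integral_sub iYY (iZY.const_mul 2)
      rw [h3, integral_const_mul]
    rw [this, ← e6, e5]
    linarith
  have i11 : Integrable (fun x => (Y x - Z x) * (Y x - Z x)) P := by
    have h1 : (fun x => (Y x - Z x) * (Y x - Z x))
        = fun x => (Y x * Y x - 2 * (Z x * Y x)) + Z x * Z x := by
      funext x; ring
    rw [h1]
    exact (iYY.sub (iZY.const_mul 2)).add iZZ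
  have e12 : ∫ x, (Y x - Z x) * (Y x - Z x) ∂P = 0 :=
    le_antisymm e10 (integral_nonneg fun x => mul_self_nonneg _)
  have e13 := (integral_eq_zero_iff_of_nonneg (fun x => mul_self_nonneg _) i11).1 e12
  filter_upwards [e13] with x hx
  have : (Y x - Z x) * (Y x - Z x) = 0 := hx
  have := mul_self_eq_zero.1 this
  linarith

lemma int_ind_mul (V : Set Ω) (hV : MeasurableSet V) (g : Ω → ℝ) :
    ∫ x in V, g x ∂P = ∫ x, ind V x * g x ∂P := by
  rw [← integral_indicator hV]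
  refine integral_congr_ae (ae_of_all _ fun x => ?_)
  unfold ind
  by_cases hx : x ∈ V
  · simp [hx]
  · simp [hx]

lemma swap_ce (h : 𝒢 ≤ m0) {V G : Set Ω} (hV : MeasurableSet V)
    (hG : MeasurableSet G) :
    ∫ x in V, (P[ind G | 𝒢]) x ∂P = ∫ x in G, (P[ind V | 𝒢]) x ∂P := by
  rw [int_ind_mul V hV, int_ind_mul G hG]
  have h1 : ∫ x, (P[ind G | 𝒢]) x * ind V x ∂P = ∫ x, (P[ind G | 𝒢]) x * (P[ind V | 𝒢]) x ∂P :=
    pull h stronglyMeasurable_condExp (ce_bdd hG h) (integrable_ind hV)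
  have h2 : ∫ x, (P[ind V | 𝒢]) x * ind G x ∂P = ∫ x, (P[ind V | 𝒢]) x * (P[ind G | 𝒢]) x ∂P :=
    pull h stronglyMeasurable_condExp (ce_bdd hV h) (integrable_ind hG)
  calc ∫ x, ind V x * (P[ind G | 𝒢]) x ∂P = ∫ x, (P[ind G | 𝒢]) x * ind V x ∂P := by
        simp only [mul_comm]
    _ = ∫ x, (P[ind G | 𝒢]) x * (P[ind V | 𝒢]) x ∂P := h1
    _ = ∫ x, (P[ind V | 𝒢]) x * (P[ind G | 𝒢]) x ∂P := by simp only [mul_comm]
    _ = ∫ x, (P[ind V | 𝒢]) x * ind G x ∂P := h2.symm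
    _ = _ := by simp only [mul_comm]

lemma int_ind (V G : Set Ω) (_hV : MeasurableSet V) (hG : MeasurableSet G) :
    ∫ x in V, ind G x ∂P = P.real (V ∩ G) := by
  unfold ind
  rw [integral_indicator hG, Measure.restrict_restrict hG]
  simp [Set.inter_comm]

/-- extension of the conditional independence statement to the generated σ-algebra -/
theorem ci_ext (h0 : 𝒢 ≤ m0) (h0' : 𝒢' ≤ m0)
    {𝓕 : ℕ → MeasurableSpace Ω} (hmono : Monotone 𝓕) (hF0 : ∀ n, 𝓕 n ≤ m0)
    (hF : ∀ n, ∀ G, MeasurableSet[𝓕 n] G → P[ind G | 𝒢] =ᵐ[P] P[ind G | 𝒢'])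
    {G : Set Ω} (hG : MeasurableSet[⨆ n, 𝓕 n] G) {V : Set Ω} (hV : MeasurableSet[𝒢] V) :
    P.real (V ∩ G) = ∫ x in V, (P[ind G | 𝒢']) x ∂P := by
  have hV0 : MeasurableSet[m0] V := h0 _ hV
  have hsup : (⨆ n, 𝓕 n) ≤ m0 := iSup_le hF0
  rw [swap_ce h0' hV0 (hsup _ hG)]
  have hgen : (⨆ n, 𝓕 n) = MeasurableSpace.generateFrom {s | ∃ n, MeasurableSet[𝓕 n] s} :=
    MeasurableSpace.measurableSpace_iSup_eq 𝓕
  have hpi : IsPiSystem {s : Set Ω | ∃ n, MeasurableSet[𝓕 n] s} := by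
    rintro s ⟨n, hs⟩ t ⟨k, ht⟩ _
    refine ⟨max n k, ?_⟩
    exact MeasurableSet.inter (hmono (le_max_left n k) _ hs) (hmono (le_max_right n k) _ ht)
  have iV : Integrable (P[ind V | 𝒢']) P := integrable_condExp
  have key : ∀ G, MeasurableSet[⨆ n, 𝓕 n] G → P.real (V ∩ G) = ∫ x in G, (P[ind V | 𝒢']) x ∂P := by
    intro G hG
    induction G, hG using MeasurableSpace.induction_on_inter (m := ⨆ n, 𝓕 n) hgen hpi with
    | empty => simp
    | basic t ht =>
      obtain ⟨n, hn⟩ := ht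
      have ht0 : MeasurableSet[m0] t := hF0 n _ hn
      rw [← swap_ce h0' hV0 ht0]
      have h1 : ∫ x in V, (P[ind t | 𝒢]) x ∂P = ∫ x in V, ind t x ∂P :=
        setIntegral_condExp h0 (integrable_ind ht0) hV
      have h2 : ∫ x in V, (P[ind t | 𝒢]) x ∂P = ∫ x in V, (P[ind t | 𝒢']) x ∂P :=
        integral_congr_ae (ae_restrict_of_ae (hF n t hn))
      rw [← h2, h1, int_ind V t hV0 ht0]
    | compl t ht ih =>
      have ht0 : MeasurableSet[m0] t := hsup _ ht
      have h1 : P.real (V ∩ tᶜ) = P.real V - P.real (V ∩ t) := by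
        have h := measureReal_inter_add_sdiff (μ := P) (s := V) ht0
        rw [← Set.diff_eq]
        linarith
      have h2 : ∫ x in tᶜ, (P[ind V | 𝒢']) x ∂P
          = ∫ x, (P[ind V | 𝒢']) x ∂P - ∫ x in t, (P[ind V | 𝒢']) x ∂P := by
        rw [← integral_add_compl ht0 iV]; ring
      have h3 : ∫ x, (P[ind V | 𝒢']) x ∂P = P.real V := by
        rw [integral_condExp h0']
        have := int_ind (P := P) Set.univ V MeasurableSet.univ hV0
        simpa using this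
      rw [h1, h2, h3, ih]
    | iUnion f hd hf ih =>
      have hf0 : ∀ i, MeasurableSet[m0] (f i) := fun i => hsup _ (hf i)
      have h1 : HasSum (fun i => ∫ x in f i, (P[ind V | 𝒢']) x ∂P)
          (∫ x in ⋃ i, f i, (P[ind V | 𝒢']) x ∂P) :=
        hasSum_integral_iUnion hf0 hd iV.integrableOn
      have h2 : HasSum (fun i => P.real (V ∩ f i)) (P.real (V ∩ ⋃ i, f i)) := by
        have e1 : ∀ i, P.real (V ∩ f i) = ∫ x in f i, ind V x ∂P := by
          intro i; rw [int_ind _ _ (hf0 i) hV0, Set.inter_comm]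
        have e2 : P.real (V ∩ ⋃ i, f i) = ∫ x in ⋃ i, f i, ind V x ∂P := by
          rw [int_ind _ _ (MeasurableSet.iUnion hf0) hV0, Set.inter_comm]
        rw [e2]
        simp only [e1]
        exact hasSum_integral_iUnion hf0 hd (integrable_ind hV0).integrableOn
      refine h2.unique ?_
      have : (fun i => P.real (V ∩ f i)) = fun i => ∫ x in f i, (P[ind V | 𝒢']) x ∂P :=
        funext fun i => ih i
      rw [this]
      exact h1
  exact key G hG

end core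

end Pool.Agent.H452R3.HR
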