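import Pool.Agent.H452R3.HR.Arr

set_option autoImplicit false
set_option linter.unusedSectionVars false
open MeasureTheory Set Filter Topology
open scoped ENNReal

namespace Pool.Agent.H452R3.HR

variable {r m : ℕ}

/-- the statement descended on -/
def DD (j : ℕ) (B : Finset (Fin r → ℕ)) (P ν : Measure (Arr r)) : Prop :=
  ∃ G : (Fin r ↪o Fin m) → Set (Arr r),
    (∀ t, MeasurableSet[Alg ((L m j ∪ (B : Set (Fin r → ℕ))) ∩ U m (rg t))] (G t)) ∧
    P (⋂ t, G t) = 0 ∧ ν (⋂ t, G t) ≠ 0

lemma remove_bit {P ν : Measure (Arr r)} [IsProbabilityMeasure P] [IsFiniteMeasure ν]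
    {C : ℝ≥0∞} (hinv : ∀ σ : ℕ → ℕ, Function.Injective σ → P.map (shift σ) = P)
    (hdom : ∀ t : Fin r ↪o Fin m, ∀ A, MeasurableSet[Alg (U m (rg t))] A → ν A ≤ C * P A)
    {j : ℕ} (hj : j ≤ r) (hr : r ≤ m) {B : Finset (Fin r → ℕ)} {s : Fin r → ℕ}
    (hB : ∀ s' ∈ B, (tr m s').card = j) (hs : (tr m s).card = j)
    (h : DD (m := m) j (insert s B) P ν) : DD (m := m) j B P ν := by
  classical
  obtain ⟨G, hG, hP, hν⟩ := h
  set Q : Bool → Set (Arr r) := fun β => {R | R s = β} with hQ
  obtain ⟨β, hβ⟩ : ∃ β : Bool, ν ((⋂ t, G t) ∩ Q β) ≠ 0 := by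
    by_contra hcon
    push Not at hcon
    apply hν
    have : (⋂ t, G t) = ((⋂ t, G t) ∩ Q true) ∪ ((⋂ t, G t) ∩ Q false) := by
      ext R
      simp only [hQ, Set.mem_union, Set.mem_inter_iff, Set.mem_ofPred_eq]
      cases R s <;> simp
    rw [this]
    exact measure_union_null (hcon true) (hcon false)
  set G' : (Fin r ↪o Fin m) → Set (Arr r) :=
    fun t => (fun R : Arr r => Function.update R s β) ⁻¹' (G t) with hG'def
  have hG' : ∀ t, MeasurableSet[Alg ((L m j ∪ (B : Set (Fin r → ℕ))) ∩ U m (rg t))] (G' t) := by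
    intro t
    have hmeas : @Measurable _ _ (Alg ((L m j ∪ (B : Set (Fin r → ℕ))) ∩ U m (rg t)))
        (Alg ((L m j ∪ ((insert s B : Finset _) : Set (Fin r → ℕ))) ∩ U m (rg t)))
        (fun R : Arr r => Function.update R s β) := by
      refine meas_to_Alg fun s' hs' => ?_
      by_cases hss : s' = s
      · subst hss
        simp only [Function.update_self]
        exact measurable_const
      · simp only [Function.update_of_ne hss]
        refine meas_eval ⟨?_, hs'.2⟩
        rcases hs'.1 with h1 | h1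
        · exact Or.inl h1
        · right
          rw [Finset.coe_insert] at h1
          rcases h1 with h1 | h1
          · exact absurd h1 hss
          · exact h1
    exact hmeas (hG t)
  set V : Set (Arr r) := ⋂ t, G' t with hV
  have hVm : MeasurableSet[Alg (L m j ∪ (B : Set (Fin r → ℕ)))] V :=
    MeasurableSet.iInter fun t => Alg_mono Set.inter_subset_left _ (hG' t)
  have hVQ : V ∩ Q β = (⋂ t, G t) ∩ Q β := by
    ext R
    simp only [hV, hG'def, hQ, Set.mem_inter_iff, Set.mem_iInter, Set.mem_preimage,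
      Set.mem_ofPred_eq]
    refine and_congr_left fun hR => ?_
    have : Function.update R s β = R := by rw [← hR]; exact Function.update_eq_self s R
    rw [this]
  set e := tr m s with he
  have he' : ∀ i ∈ e, i < m := fun i hi => (mem_tr.1 hi).2
  have hQm : MeasurableSet[Alg (U m e)] (Q β) :=
    (meas_eval (mem_U_tr m s)) (measurableSet_singleton β)
  have hQ0 : MeasurableSet (Q β) := Alg_le _ _ hQm
  have hV0 : MeasurableSet V := Alg_le _ _ hVm
  set q : Arr r → ℝ := P[ind (Q β) | Alg ((L m j ∪ (B : Set (Fin r → ℕ))) ∩ U m e)] with hq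
  obtain ⟨n0, hn0⟩ := stable (r := r) e B hB
  have hCI : P.real (V ∩ Q β) = ∫ R in V, q R ∂P := CI he' hinv hn0 hQm hVm
  have hPV : P.real (V ∩ Q β) = 0 := by
    rw [hVQ, measureReal_def, measure_mono_null Set.inter_subset_left hP]; rfl
  have hqs : StronglyMeasurable[Alg ((L m j ∪ (B : Set (Fin r → ℕ))) ∩ U m e)] q :=
    stronglyMeasurable_condExp
  have hqi : Integrable q P := integrable_condExp
  have hq0 : 0 ≤ᵐ[P] q := ce_nonneg _
  have hZpos : MeasurableSet[Alg ((L m j ∪ (B : Set (Fin r → ℕ))) ∩ U m e)] {R | 0 < q R} :=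
    hqs.measurable measurableSet_Ioi
  have hZnon : MeasurableSet[Alg ((L m j ∪ (B : Set (Fin r → ℕ))) ∩ U m e)] {R | q R ≤ 0} :=
    hqs.measurable measurableSet_Iic
  have hPpos : P (V ∩ {R | 0 < q R}) = 0 := by
    have h1 : ∫ R in V, q R ∂P = 0 := by rw [← hCI, hPV]
    have h2 := (setIntegral_eq_zero_iff_of_nonneg_ae (ae_restrict_of_ae hq0)
      hqi.integrableOn).1 h1
    have h3 : ∀ᵐ R ∂P, R ∈ V → q R = 0 := (ae_restrict_iff' hV0).1 h2
    rw [← compl_compl (V ∩ {R | 0 < q R})]
    rw [← mem_ae_iff]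
    filter_upwards [h3] with R hR hR'
    have := hR hR'.1
    have h4 : 0 < q R := hR'.2
    linarith
  obtain ⟨t0, ht0⟩ := exists_t hj hr he' hs
  -- the new sets
  refine ⟨fun t => if e ⊆ rg t then G' t ∩ {R | 0 < q R} else G' t, ?_, ?_, ?_⟩
  · intro t
    simp only
    split_ifs with h1
    · refine MeasurableSet.inter (hG' t) ?_
      exact Alg_mono (Set.inter_subset_inter_right _ (U_mono h1)) _ hZpos
    · exact hG' t
  · refine measure_mono_null ?_ hPpos
    intro R hR
    rw [Set.mem_iInter] at hR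
    refine ⟨?_, ?_⟩
    · rw [hV, Set.mem_iInter]
      intro t
      have := hR t
      split_ifs at this with h1
      · exact this.1
      · exact this
    · have := hR t0
      simp only [if_pos ht0] at this
      exact this.2
  · intro hcon
    have h1 : ν (V ∩ {R | 0 < q R}) = 0 := by
      refine measure_mono_null ?_ hcon
      intro R hR
      rw [Set.mem_iInter]
      intro t
      have h2 : R ∈ G' t := Set.mem_iInter.1 hR.1 t
      split_ifs with h1
      · exact ⟨h2, hR.2⟩
      · exact h2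
    have h2 : P (Q β ∩ {R | q R ≤ 0}) = 0 := by
      have h3 : ∫ R in {R | q R ≤ 0}, q R ∂P = ∫ R in {R | q R ≤ 0}, ind (Q β) R ∂P :=
        setIntegral_condExp (Alg_le _) (integrable_ind hQ0) hZnon
      have hZ0 : MeasurableSet {R | q R ≤ 0} := Alg_le _ _ hZnon
      rw [int_ind _ _ hZ0 hQ0] at h3
      have h4 : ∫ R in {R | q R ≤ 0}, q R ∂P ≤ 0 :=
        setIntegral_nonpos hZ0 fun R hR => hR
      have h5 : P.real ({R | q R ≤ 0} ∩ Q β) = 0 :=
        le_antisymm (h3 ▸ h4) measureReal_nonneg
      rw [Set.inter_comm, measureReal_def, ENNReal.toReal_eq_zero_iff] at h5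
      rcases h5 with h5 | h5
      · rw [Set.inter_comm] at h5 ⊢
        exact h5
      · exact absurd h5 (measure_ne_top _ _)
    have h3 : ν (Q β ∩ {R | q R ≤ 0}) = 0 := by
      have hm : MeasurableSet[Alg (U m (rg t0))] (Q β ∩ {R | q R ≤ 0}) := by
        refine MeasurableSet.inter (Alg_mono (U_mono ht0) _ hQm) ?_
        exact Alg_mono (Set.inter_subset_right.trans (U_mono ht0)) _ hZnon
      have := hdom t0 _ hm
      rw [h2, mul_zero] at this
      exact le_antisymm this zero_le
    apply hβ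
    rw [← hVQ]
    refine measure_mono_null ?_ (measure_union_null h1 h3)
    intro R hR
    by_cases hp : 0 < q R
    · exact Or.inl ⟨hR.1, hp⟩
    · exact Or.inr ⟨hR.2, not_lt.1 hp⟩

/-- finite sets of level-`j` tuples -/
def BN (r m j N : ℕ) : Finset (Fin r → ℕ) :=
  (Fintype.piFinset fun _ : Fin r => Finset.range N).filter fun s => (tr m s).card = j

lemma mem_BN {j N : ℕ} {s : Fin r → ℕ} :
    s ∈ BN r m j N ↔ (∀ a, s a < N) ∧ (tr m s).card = j := by
  simp [BN]

lemma levy_step {P ν : Measure (Arr r)} [IsProbabilityMeasure P] [IsFiniteMeasure ν]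
    {C : ℝ≥0∞} (hC : C ≠ ⊤)
    (hinv : ∀ σ : ℕ → ℕ, Function.Injective σ → P.map (shift σ) = P)
    (hdom : ∀ t : Fin r ↪o Fin m, ∀ A, MeasurableSet[Alg (U m (rg t))] A → ν A ≤ C * P A)
    {j : ℕ} (h : DD (m := m) (j + 1) ∅ P ν) :
    ∃ B : Finset (Fin r → ℕ), (∀ s ∈ B, (tr m s).card = j) ∧ DD (m := m) j B P ν := by
  classical
  obtain ⟨G, hG, hP, hν⟩ := h
  have hG : ∀ t, MeasurableSet[Alg (L m (j + 1) ∩ U m (rg t))] (G t) := by
    intro t
    have := hG t
    rw [Finset.coe_empty, Set.union_empty] at this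
    exact this
  have hG0 : ∀ t, MeasurableSet (G t) := fun t => Alg_le _ _ (hG t)
  have hBN : ∀ N, ∀ s ∈ BN r m j N, (tr m s).card = j := fun N s hs => (mem_BN.1 hs).2
  -- the filtrations
  let ℱ : (Fin r ↪o Fin m) → Filtration ℕ (MeasurableSpace.pi : MeasurableSpace (Arr r)) :=
    fun t =>
    { seq := fun N => Alg ((L m j ∪ (BN r m j N : Set (Fin r → ℕ))) ∩ U m (rg t))
      mono' := by
        intro N N' hNN
        refine Alg_mono (Set.inter_subset_inter_left _ (Set.union_subset_union_right _ ?_))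
        intro s hs
        have := mem_BN.1 hs
        exact mem_BN.2 ⟨fun a => (this.1 a).trans_le hNN, this.2⟩
      le' := fun N => Alg_le _ }
  have hsup : ∀ t, Alg (L m (j + 1) ∩ U m (rg t)) ≤ ⨆ N, (ℱ t) N := by
    intro t
    refine iSup₂_le fun s hs => ?_
    obtain ⟨N, hN⟩ : ∃ N, ∀ a, s a < N := by
      refine ⟨(Finset.univ.sup s) + 1, fun a => ?_⟩
      have := Finset.le_sup (f := s) (Finset.mem_univ a)
      omega
    refine le_iSup_of_le N ?_
    refine (meas_eval (A := (L m j ∪ (BN r m j N : Set (Fin r → ℕ))) ∩ U m (rg t))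
      (s := s) ⟨?_, hs.2⟩).comap_le
    have h1 : (tr m s).card < j + 1 := hs.1
    rcases Nat.lt_succ_iff_lt_or_eq.1 h1 with h2 | h2
    · exact Or.inl h2
    · exact Or.inr (mem_BN.2 ⟨hN, h2⟩)
  set q : ℕ → (Fin r ↪o Fin m) → Arr r → ℝ := fun N t => P[ind (G t) | (ℱ t) N] with hq
  have hconv : ∀ t, ∀ᵐ R ∂P, Tendsto (fun N => q N t R) atTop (𝓝 (ind (G t) R)) := by
    intro t
    refine Integrable.tendsto_ae_condExp (integrable_ind (hG0 t)) ?_
    have : MeasurableSet[⨆ N, (ℱ t) N] (G t) := hsup t _ (hG t)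
    exact (stronglyMeasurable_const (b := (1 : ℝ))).indicator this
  have hqs : ∀ N t, StronglyMeasurable[(ℱ t) N] (q N t) := fun N t => stronglyMeasurable_condExp
  have hqi : ∀ N t, Integrable (q N t) P := fun N t => integrable_condExp
  set K : ℕ := Fintype.card (Fin r ↪o Fin m) with hK
  set κ : ℝ := 1 / ((K : ℝ) + 1) with hκ
  have hκ0 : 0 < κ := by positivity
  have hKκ : (K : ℝ) * κ < 1 := by
    rw [hκ, mul_one_div, div_lt_one (by positivity)]
    linarith
  set W : ℕ → (Fin r ↪o Fin m) → Set (Arr r) := fun N t => {R | 1 - κ < q N t R} with hW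
  have hWm : ∀ N t, MeasurableSet[Alg ((L m j ∪ (BN r m j N : Set (Fin r → ℕ))) ∩ U m (rg t))]
      (W N t) := fun N t => (hqs N t).measurable measurableSet_Ioi
  -- small differences
  have hsmall : ∀ t, Tendsto (fun N => P (G t \ W N t)) atTop (𝓝 0) := by
    intro t
    have h1 : TendstoInMeasure P (fun N => q N t) atTop (ind (G t)) :=
      tendstoInMeasure_of_tendsto_ae (fun N => (hqi N t).aestronglyMeasurable) (hconv t)
    have h2 := h1 (ENNReal.ofReal κ) (by simpa using hκ0)
    refine tendsto_of_tendsto_of_tendsto_of_le_of_le tendsto_const_nhds h2 (fun N => zero_le) ?_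
    intro N
    refine measure_mono ?_
    intro R hR
    have h3 : ind (G t) R = 1 := by
      unfold ind; rw [Set.indicator_of_mem hR.1]
    have h4 : ¬ (1 - κ < q N t R) := hR.2
    show ENNReal.ofReal κ ≤ edist (q N t R) (ind (G t) R)
    rw [edist_dist, h3]
    apply ENNReal.ofReal_le_ofReal
    rw [Real.dist_eq]
    have : q N t R - 1 ≤ -κ := by linarith [not_lt.1 h4]
    rw [abs_of_nonpos (by linarith)]
    linarith
  -- choose N
  obtain ⟨N, hN⟩ : ∃ N, ν (⋂ t, W N t) ≠ 0 := by
    by_contra hcon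
    push Not at hcon
    have h1 : ∀ N, ν (⋂ t, G t) ≤ ∑ t, C * P (G t \ W N t) := by
      intro N
      calc ν (⋂ t, G t) ≤ ν ((⋂ t, W N t) ∪ ⋃ t, (G t \ W N t)) := by
            refine measure_mono ?_
            intro R hR
            by_cases hRW : R ∈ ⋂ t, W N t
            · exact Or.inl hRW
            · right
              rw [Set.mem_iInter] at hRW
              push Not at hRW
              obtain ⟨t, ht⟩ := hRW
              exact Set.mem_iUnion.2 ⟨t, Set.mem_iInter.1 hR t, ht⟩
        _ ≤ ν (⋂ t, W N t) + ν (⋃ t, (G t \ W N t)) := measure_union_le _ _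
        _ ≤ 0 + ∑ t, ν (G t \ W N t) := by
            gcongr
            · exact (hcon N).le
            · exact measure_iUnion_fintype_le _ _
        _ ≤ ∑ t, C * P (G t \ W N t) := by
            rw [zero_add]
            refine Finset.sum_le_sum fun t _ => hdom t _ ?_
            refine MeasurableSet.diff ?_ ?_
            · exact Alg_mono Set.inter_subset_right _ (hG t)
            · exact Alg_mono Set.inter_subset_right _ (hWm N t)
    have h2 : Tendsto (fun N => ∑ t, C * P (G t \ W N t)) atTop (𝓝 0) := by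
      have : Tendsto (fun N => ∑ t, C * P (G t \ W N t)) atTop
          (𝓝 (∑ _t : (Fin r ↪o Fin m), (0 : ℝ≥0∞))) := by
        refine tendsto_finsetSum _ fun t _ => ?_
        have := ENNReal.Tendsto.const_mul (a := C) (hsmall t) (Or.inr hC)
        simpa using this
      simpa using this
    have h3 := ge_of_tendsto' h2 h1
    exact hν (le_antisymm h3 zero_le)
  refine ⟨BN r m j N, hBN N, fun t => W N t, hWm N, ?_, hN⟩
  -- P of the intersection vanishes
  set V : Set (Arr r) := ⋂ t, W N t with hV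
  have hVm : MeasurableSet[Alg (L m j ∪ (BN r m j N : Set (Fin r → ℕ)))] V :=
    MeasurableSet.iInter fun t => Alg_mono Set.inter_subset_left _ (hWm N t)
  have hV0 : MeasurableSet V := Alg_le _ _ hVm
  have hVG : ∀ t, P.real (V \ G t) ≤ κ * P.real V := by
    intro t
    obtain ⟨n0, hn0⟩ := stable (r := r) (rg t) (BN r m j N) (hBN N)
    have hGU : MeasurableSet[Alg (U m (rg t))] (G t) :=
      Alg_mono Set.inter_subset_right _ (hG t)
    have h1 : P.real (V ∩ G t) = ∫ R in V, q N t R ∂P := CI (rg_lt t) hinv hn0 hGU hVm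
    have h2 : ∫ R in V, (1 - κ) ∂P ≤ ∫ R in V, q N t R ∂P := by
      refine setIntegral_mono_on (integrable_const _).integrableOn (hqi N t).integrableOn hV0 ?_
      intro R hR
      have : R ∈ W N t := Set.mem_iInter.1 hR t
      exact le_of_lt this
    rw [setIntegral_const, smul_eq_mul] at h2
    have h3 := measureReal_inter_add_sdiff (μ := P) (s := V) (hG0 t)
    nlinarith
  have hsum : P.real V ≤ ∑ t, P.real (V \ G t) := by
    have h1 : P.real V ≤ P.real ((⋂ t, G t) ∪ ⋃ t, (V \ G t)) := by
      refine measureReal_mono ?_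
      intro R hR
      by_cases hRG : R ∈ ⋂ t, G t
      · exact Or.inl hRG
      · right
        rw [Set.mem_iInter] at hRG
        push Not at hRG
        obtain ⟨t, ht⟩ := hRG
        exact Set.mem_iUnion.2 ⟨t, hR, ht⟩
    have h2 : P.real ((⋂ t, G t) ∪ ⋃ t, (V \ G t)) ≤ P.real (⋂ t, G t) + P.real (⋃ t, (V \ G t)) :=
      measureReal_union_le _ _
    have h3 : P.real (⋂ t, G t) = 0 := by rw [measureReal_def, hP]; rfl
    have h4 : P.real (⋃ t, (V \ G t)) ≤ ∑ t, P.real (V \ G t) := measureReal_iUnion_fintype_le _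
    linarith
  have hfin : P.real V ≤ K * (κ * P.real V) := by
    refine hsum.trans ?_
    calc ∑ t, P.real (V \ G t) ≤ ∑ _t : (Fin r ↪o Fin m), κ * P.real V :=
          Finset.sum_le_sum fun t _ => hVG t
      _ = K * (κ * P.real V) := by
          rw [Finset.sum_const, Finset.card_univ, nsmul_eq_mul]
  have h0 : 0 ≤ P.real V := measureReal_nonneg
  have h1 : P.real V = 0 := by nlinarith
  rw [measureReal_def, ENNReal.toReal_eq_zero_iff] at h1
  rcases h1 with h1 | h1
  · exact h1
  · exact absurd h1 (measure_ne_top _ _)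

theorem descent {P ν : Measure (Arr r)} [IsProbabilityMeasure P] [IsFiniteMeasure ν]
    {C : ℝ≥0∞} (hC : C ≠ ⊤)
    (hinv : ∀ σ : ℕ → ℕ, Function.Injective σ → P.map (shift σ) = P)
    (hdom : ∀ t : Fin r ↪o Fin m, ∀ A, MeasurableSet[Alg (U m (rg t))] A → ν A ≤ C * P A)
    (hr : r ≤ m) : ∀ j, j ≤ r + 1 → ¬ DD (m := m) j ∅ P ν := by
  classical
  intro j
  induction j with
  | zero =>
    intro _ h
    obtain ⟨G, hG, hP, hν⟩ := h
    have hbot : ∀ t : Fin r ↪o Fin m, Alg ((L m 0 ∪ ((∅ : Finset (Fin r → ℕ)) : Set (Fin r → ℕ))) ∩ U m (rg t))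
        = ⊥ := by
      intro t
      have : (L m 0 ∪ ((∅ : Finset (Fin r → ℕ)) : Set (Fin r → ℕ))) ∩ U m (rg t) = ∅ := by
        ext s
        simp [L]
      rw [this]
      simp [Alg]
    by_cases hall : ∀ t, G t = Set.univ
    · have : (⋂ t, G t) = Set.univ := by simp [hall]
      rw [this, measure_univ] at hP
      exact one_ne_zero hP
    · push Not at hall
      obtain ⟨t, ht⟩ := hall
      have h1 := hG t
      rw [hbot t, MeasurableSpace.measurableSet_bot_iff] at h1
      rcases h1 with h1 | h1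
      · apply hν
        refine measure_mono_null (Set.iInter_subset _ t) ?_
        rw [h1, measure_empty]
      · exact ht h1
  | succ j ih =>
    intro hj h
    obtain ⟨B, hB, hD⟩ := levy_step hC hinv hdom h
    have key : ∀ B : Finset (Fin r → ℕ), (∀ s ∈ B, (tr m s).card = j) →
        DD (m := m) j B P ν → DD (m := m) j ∅ P ν := by
      intro B
      induction B using Finset.induction_on with
      | empty => intro _ h; exact h
      | insert s B hs ihB =>
        intro hB h
        refine ihB (fun s' hs' => hB s' (Finset.mem_insert_of_mem hs')) ?_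
        exact remove_bit hinv hdom (by omega) hr
          (fun s' hs' => hB s' (Finset.mem_insert_of_mem hs'))
          (hB s (Finset.mem_insert_self _ _)) h
    exact ih (by omega) (key B hB hD)

end Pool.Agent.H452R3.HR
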