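import Pool.Agent.H452R3.HR.Geom

set_option autoImplicit false
set_option linter.unusedSectionVars false
open MeasureTheory Set Filter Topology
open scoped ENNReal

namespace Pool.Agent.H452R3.HR

/-- the fractional removal lemma applied to convex tuples -/
theorem many_cliques {d : ℕ} (k : ℕ) (hk : k ≤ d) {ε : ℝ} (hε : 0 < ε) :
    ∃ c0 : ℝ≥0∞, 0 < c0 ∧ ∀ S : Set (VV d), MeasurableSet S → 0 < volume S → volume S < ⊤ →
      ENNReal.ofReal ε ≤ Measure.pi (fun _ : Fin (k + 1) => mu S) (CS (k + 1) S) →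
      ∃ E : Set (Fin (k + 1) → VV d), E ⊆ CS (k + 1) S ∧
        c0 ≤ Measure.pi (fun _ : Fin (d + 1) => mu S)
          {X | ∀ t : Fin (k + 1) ↪o Fin (d + 1), X ∘ t ∈ E} := by
  classical
  set C : ℝ≥0∞ := (ENNReal.ofReal ε)⁻¹ * ∑ t : Fin (k + 1) ↪o Fin (d + 1),
    ENNReal.ofReal |(LinearMap.det (LL (d := d) (k + 1) (fun a => (t a : ℕ))))⁻¹| with hC
  have hCt : C ≠ ⊤ := by
    refine ENNReal.mul_ne_top ?_ ?_
    · simpa using hε
    · exact (ENNReal.sum_lt_top.2 fun t _ => ENNReal.ofReal_lt_top).ne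
  obtain ⟨c0, hc0, hmain⟩ := frac_removal (k + 1) (d + 1) (by omega) C hCt
  refine ⟨c0, hc0, fun S hS h0 h1 hdens => ?_⟩
  have pmu := mu_prob h0 h1
  set μr := Measure.pi (fun _ : Fin (k + 1) => mu S) with hμr
  obtain ⟨E, hEsub, hEm, hEae⟩ := (CS_null (r := k + 1) hS μr).exists_measurable_subset_ae_eq
  have hEμ : ENNReal.ofReal ε ≤ μr E := by rw [measure_congr hEae]; exact hdens
  have hE0 : μr E ≠ 0 := by
    intro h
    rw [h] at hEμ
    have : 0 < ENNReal.ofReal ε := ENNReal.ofReal_pos.2 hε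
    exact absurd hEμ (not_le.2 this)
  have hEt : μr E ≠ ⊤ := measure_ne_top _ _
  have hr : 0 < k + 1 := Nat.succ_pos k
  set Lv : (Fin (k + 1) → VV d) →ₗ[ℝ] (Fin (d + 1) → VV d) :=
    LL (k + 1) (fun a : Fin (d + 1) => (a : ℕ)) with hLv
  have hLvm : Measurable Lv := (LinearMap.continuous_of_finiteDimensional _).measurable
  set ν' : Measure (Fin (d + 1) → VV d) := ((μr E)⁻¹ • μr.restrict E).map Lv with hν'
  have pE : IsProbabilityMeasure ((μr E)⁻¹ • μr.restrict E) := by
    constructor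
    rw [Measure.smul_apply, Measure.restrict_apply_univ, smul_eq_mul,
      ENNReal.inv_mul_cancel hE0 hEt]
  have pν : IsProbabilityMeasure ν' := Measure.isProbabilityMeasure_map hLvm.aemeasurable
  have hinj : ∀ t : Fin (k + 1) ↪o Fin (d + 1), Function.Injective fun a => (t a : ℕ) :=
    fun t => Fin.val_injective.comp t.injective
  have hcomp : ∀ t : Fin (k + 1) ↪o Fin (d + 1), ∀ x : Fin (k + 1) → VV d,
      (Lv x) ∘ t = LL (k + 1) (fun a => (t a : ℕ)) x := by
    intro t x
    funext a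
    simp only [Function.comp, hLv, LL_apply]
  refine ⟨E, hEsub, hmain (VV d) (mu S) E hEm ν' ?_ ?_⟩
  · intro t
    have hct : Measurable (fun x : Fin (d + 1) → VV d => x ∘ t) :=
      measurable_pi_lambda _ fun a => measurable_pi_apply _
    have hLt : Measurable (LL (d := d) (k + 1) (fun a => (t a : ℕ))) :=
      (LinearMap.continuous_of_finiteDimensional _).measurable
    refine Measure.le_iff.2 fun B hB => ?_
    rw [hν', Measure.map_map hct hLvm]
    have h2 : (fun x : Fin (d + 1) → VV d => x ∘ t) ∘ Lv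
        = LL (k + 1) (fun a => (t a : ℕ)) := by
      funext x
      exact hcomp t x
    rw [h2, Measure.map_apply hLt hB, Measure.smul_apply, Measure.restrict_apply (hLt hB),
      smul_eq_mul, Set.inter_comm, Measure.smul_apply, smul_eq_mul]
    calc (μr E)⁻¹ * μr (E ∩ LL (k + 1) (fun a => (t a : ℕ)) ⁻¹' B)
        ≤ (ENNReal.ofReal ε)⁻¹ * (ENNReal.ofReal
            |(LinearMap.det (LL (d := d) (k + 1) (fun a => (t a : ℕ))))⁻¹| * μr B) := by
          gcongr
          exact dom_LL hr hS h0 h1 (hinj t) hEsub hEm hB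
      _ ≤ (ENNReal.ofReal ε)⁻¹ * ((∑ t : Fin (k + 1) ↪o Fin (d + 1), ENNReal.ofReal
            |(LinearMap.det (LL (d := d) (k + 1) (fun a => (t a : ℕ))))⁻¹|) * μr B) := by
          gcongr
          exact Finset.single_le_sum (f := fun t : Fin (k + 1) ↪o Fin (d + 1) => ENNReal.ofReal
            |(LinearMap.det (LL (d := d) (k + 1) (fun a => (t a : ℕ))))⁻¹|)
            (fun _ _ => zero_le) (Finset.mem_univ t)
      _ = C * μr B := by rw [hC, mul_assoc]
  · intro t
    have hLt : Measurable (LL (d := d) (k + 1) (fun a => (t a : ℕ))) :=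
      (LinearMap.continuous_of_finiteDimensional _).measurable
    have hct : Measurable (fun x : Fin (d + 1) → VV d => x ∘ t) :=
      measurable_pi_lambda _ fun a => measurable_pi_apply _
    have hm : MeasurableSet {x : Fin (d + 1) → VV d | x ∘ t ∉ E} := (hct hEm.compl)
    rw [hν', Measure.map_apply hLvm hm, Measure.smul_apply, Measure.restrict_apply (hLvm hm),
      smul_eq_mul]
    set Z := toMeasurable μr (CS (k + 1) S \ E) with hZ
    have hZ0 : μr Z = 0 := by
      rw [hZ, measure_toMeasurable]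
      exact (ae_le_set.1 hEae.symm.le)
    have h3 : Lv ⁻¹' {x : Fin (d + 1) → VV d | x ∘ t ∉ E} ∩ E
        ⊆ E ∩ LL (k + 1) (fun a => (t a : ℕ)) ⁻¹' Z := by
      rintro x ⟨hx1, hx2⟩
      refine ⟨hx2, ?_⟩
      apply subset_toMeasurable
      refine ⟨LL_CS hr _ (hEsub hx2), ?_⟩
      rw [← hcomp t x]
      exact hx1
    have h4 : μr (E ∩ LL (k + 1) (fun a => (t a : ℕ)) ⁻¹' Z) = 0 := by
      have := dom_LL hr hS h0 h1 (hinj t) hEsub hEm (measurableSet_toMeasurable μr _)
        (B := Z)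
      rw [← hμr, hZ0, mul_zero] at this
      exact le_antisymm this zero_le
    rw [measure_mono_null h3 h4, mul_zero]

/-- coordinates of the points of a tuple -/
def toW {d n : ℕ} (X : Fin n → VV d) : Fin n → Fin d → ℝ := fun i => (X i).ofLp

lemma affineIndep_of_DX {d : ℕ} {X : Fin (d + 1) → VV d} (h : DX (toW X) ≠ 0) :
    AffineIndependent ℝ X := by
  classical
  rw [affineIndependent_iff]
  intro s w hw hwx e he
  -- extend the weights by zero
  set w' : Fin (d + 1) → ℝ := fun i => if i ∈ s then w i else 0 with hw'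
  have h1 : ∑ i, w' i = 0 := by
    rw [← hw, hw']
    simp [Finset.sum_ite_mem]
  have h2 : ∑ i, w' i • X i = 0 := by
    rw [← hwx, hw']
    simp [ite_smul, Finset.sum_ite_mem]
  have h3 : ∀ j : Fin d, ∑ i, w' i * X i j = 0 := by
    intro j
    have := congrArg (fun v : VV d => v j) h2
    simpa using this
  have h4 : ∀ j : Fin d, ∑ i : Fin d, w' i.succ * (X i.succ j - X 0 j) = 0 := by
    intro j
    have h5 := h3 j
    rw [Fin.sum_univ_succ] at h5 h1
    simp only [mul_sub, Finset.sum_sub_distrib, ← Finset.sum_mul]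
    have h6 : w' 0 = -∑ i : Fin d, w' i.succ := by linarith
    rw [h6] at h5
    linarith
  have h5 : Matrix.vecMul (fun i : Fin d => w' i.succ)
      (Matrix.of fun i : Fin d => toW X i.succ - toW X 0) = 0 := by
    funext j
    rw [Matrix.vecMul, dotProduct]
    exact h4 j
  have h6 : (fun i : Fin d => w' i.succ) = 0 := Matrix.eq_zero_of_vecMul_eq_zero h h5
  have h7 : ∀ i, w' i = 0 := by
    intro i
    refine Fin.cases ?_ (fun i => congrFun h6 i) i
    rw [Fin.sum_univ_succ] at h1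
    have : ∑ i : Fin d, w' i.succ = 0 := Finset.sum_eq_zero fun i _ => congrFun h6 i
    linarith
  have := h7 e
  rw [hw'] at this
  simpa [he] using this

lemma vol_hull {d : ℕ} (hd : 0 < d) (X : Fin (d + 1) → VV d) :
    ENNReal.ofReal (|DX (toW X)| * (1 / (d : ℝ)) ^ d)
      ≤ volume (convexHull ℝ (Set.range X)) := by
  classical
  set K := convexHull ℝ (Set.range X) with hK
  have hKc : IsCompact K := (Set.finite_range X).isCompact_convexHull ℝ
  have hKm : MeasurableSet K := hKc.measurableSet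
  have h1 : volume K = volume ((WithLp.toLp 2 : (Fin d → ℝ) → VV d) ⁻¹' K) :=
    ((PiLp.volume_preserving_toLp (Fin d)).measure_preimage hKm.nullMeasurableSet).symm
  set A : Matrix (Fin d) (Fin d) ℝ := Matrix.of fun i : Fin d => toW X i.succ - toW X 0 with hA
  set Ψ : (Fin d → ℝ) →ₗ[ℝ] (Fin d → ℝ) := Matrix.toLin' A.transpose with hΨ
  have hΨa : ∀ a j, Ψ a j = ∑ l, a l * (toW X l.succ j - toW X 0 j) := by
    intro a j
    rw [hΨ, Matrix.toLin'_apply, Matrix.mulVec, dotProduct]
    refine Finset.sum_congr rfl fun l _ => ?_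
    rw [Matrix.transpose_apply, hA, Matrix.of_apply, mul_comm]
    rfl
  have hdet : LinearMap.det Ψ = DX (toW X) := by
    rw [hΨ, LinearMap.det_toLin', Matrix.det_transpose]
    rfl
  set cube : Set (Fin d → ℝ) := Set.pi Set.univ fun _ => Set.Icc 0 (1 / (d : ℝ)) with hcube
  have hvol : volume (Ψ '' cube) = ENNReal.ofReal (|DX (toW X)| * (1 / (d : ℝ)) ^ d) := by
    rw [Measure.addHaar_image_linearMap, hdet, hcube, volume_pi_pi]
    simp only [Real.volume_Icc, sub_zero, Finset.prod_const, Finset.card_univ, Fintype.card_fin]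
    rw [← ENNReal.ofReal_pow (by positivity), ← ENNReal.ofReal_mul (abs_nonneg _)]
  have hsub : Ψ '' cube ⊆ (fun v : Fin d → ℝ => toW X 0 + v) ⁻¹'
      ((WithLp.toLp 2 : (Fin d → ℝ) → VV d) ⁻¹' K) := by
    rintro _ ⟨a, ha, rfl⟩
    have ha0 : ∀ i, 0 ≤ a i := fun i => (ha i trivial).1
    have ha1 : ∀ i, a i ≤ 1 / (d : ℝ) := fun i => (ha i trivial).2
    have hsum : ∑ i, a i ≤ 1 := by
      calc ∑ i, a i ≤ ∑ _i : Fin d, 1 / (d : ℝ) := Finset.sum_le_sum fun i _ => ha1 i
        _ = 1 := by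
          rw [Finset.sum_const, Finset.card_univ, Fintype.card_fin, nsmul_eq_mul]
          field_simp
    show WithLp.toLp 2 (toW X 0 + Ψ a) ∈ K
    rw [hK, hull_range]
    refine ⟨Fin.cons (1 - ∑ i, a i) a, ⟨?_, ?_⟩, ?_⟩
    · intro i
      refine Fin.cases ?_ (fun i => ?_) i
      · simpa using hsum
      · simpa using ha0 i
    · rw [Fin.sum_univ_succ]
      simp
    · ext j
      simp only
      rw [Fin.sum_univ_succ]
      simp only [Fin.cons_zero, Fin.cons_succ]
      have h2 : (toW X 0 + Ψ a) j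
          = X 0 j + ∑ l, a l * (X l.succ j - X 0 j) := by
        show toW X 0 j + Ψ a j = _
        rw [hΨa]
        rfl
      rw [h2]
      simp only [PiLp.add_apply, PiLp.smul_apply, smul_eq_mul]
      have h3 : (∑ x : Fin d, a x • X x.succ : VV d) j = ∑ x : Fin d, a x * X x.succ j := by
        simp
      rw [h3]
      simp only [mul_sub, Finset.sum_sub_distrib, ← Finset.sum_mul]
      ring
  rw [h1, ← hvol]
  refine (measure_mono hsub).trans_eq ?_
  exact measure_preimage_add _ _ _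

theorem main_thm (k d : ℕ) (hk1 : 1 ≤ k) (hkd : k ≤ d) (ε : ℝ) (hε : 0 < ε) :
    ∃ δ : ℝ, 0 < δ ∧
      ∀ S : Set (EuclideanSpace ℝ (Fin d)), MeasurableSet S → 0 < volume S → volume S < ⊤ →
        ε ≤ (volume {x : Fin (k + 1) → EuclideanSpace ℝ (Fin d) |
                (∀ i, x i ∈ S) ∧ convexHull ℝ (Set.range x) ⊆ S}).toReal
              / (volume S).toReal ^ (k + 1) →
        ∃ X : Fin (d + 1) → EuclideanSpace ℝ (Fin d),
          AffineIndependent ℝ X ∧
          δ * (volume S).toReal ≤ (volume (convexHull ℝ (Set.range X))).toReal ∧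
          ∀ s : Finset (Fin (d + 1)), s.card = k + 1 →
            convexHull ℝ (X '' (s : Set (Fin (d + 1)))) ⊆ S := by
  classical
  obtain ⟨n, rfl⟩ : ∃ n, d = n + 1 := ⟨d - 1, by omega⟩
  obtain ⟨c0, hc0, hmain⟩ := many_cliques (d := n + 1) k hkd hε
  -- choose δ0
  obtain ⟨δ0, hδ0, hδ0'⟩ : ∃ δ0 : ℝ, 0 < δ0 ∧
      ((n + 1 : ℕ) : ℝ≥0∞) * ENNReal.ofReal (2 ^ (n + 1) * δ0) < c0 := by
    have ht : Tendsto (fun x : ℝ => ((n + 1 : ℕ) : ℝ≥0∞) * ENNReal.ofReal (2 ^ (n + 1) * x))
        (𝓝[>] 0) (𝓝 (((n + 1 : ℕ) : ℝ≥0∞) * ENNReal.ofReal (2 ^ (n + 1) * 0))) := by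
      refine Tendsto.mono_left ?_ nhdsWithin_le_nhds
      refine ENNReal.Tendsto.const_mul ?_ (Or.inr (by simp))
      refine ENNReal.tendsto_ofReal ?_
      exact (continuous_const.mul continuous_id).tendsto 0
    rw [mul_zero, ENNReal.ofReal_zero, mul_zero] at ht
    have h1 := ht.eventually (gt_mem_nhds hc0)
    obtain ⟨δ0, h2, h3⟩ := (h1.and self_mem_nhdsWithin).exists
    exact ⟨δ0, h3, h2⟩
  refine ⟨δ0 * (1 / ((n + 1 : ℕ) : ℝ)) ^ (n + 1), by positivity, fun S hS h0 h1 hdens => ?_⟩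
  have pmu := mu_prob h0 h1
  have hN0 : 0 < (volume S).toReal := ENNReal.toReal_pos h0.ne' h1.ne
  -- the density hypothesis
  have hCSm : ENNReal.ofReal ε
      ≤ Measure.pi (fun _ : Fin (k + 1) => mu S) (CS (k + 1) S) := by
    rw [pi_mu h0 h1, Measure.smul_apply, smul_eq_mul,
      Measure.restrict_apply' (MeasurableSet.univ_pi fun _ => hS)]
    have h2 : CS (k + 1) S ∩ Set.pi Set.univ (fun _ : Fin (k + 1) => S) = CS (k + 1) S := by
      refine Set.inter_eq_left.2 ?_
      intro x hx i _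
      exact hx.1 i
    rw [h2]
    have hfin : volume (CS (k + 1) S) ≠ ⊤ := by
      have h3 : volume (CS (k + 1) S) ≤ volume (Set.pi Set.univ (fun _ : Fin (k + 1) => S)) :=
        measure_mono fun x hx i _ => hx.1 i
      rw [volume_pi_pi] at h3
      refine (h3.trans_lt ?_).ne
      exact ENNReal.prod_lt_top fun _ _ => h1
    have h4 : ε ≤ ((volume (CS (k + 1) S)).toReal) / (volume S).toReal ^ (k + 1) := hdens
    refine (ENNReal.ofReal_le_ofReal h4).trans ?_
    rw [ENNReal.ofReal_div_of_pos (by positivity), ENNReal.ofReal_toReal hfin,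
      ENNReal.ofReal_pow hN0.le, ENNReal.ofReal_toReal h1.ne, ENNReal.div_eq_inv_mul,
      ENNReal.inv_pow]
  obtain ⟨E, hE, hc⟩ := hmain S hS h0 h1 hCSm
  -- the measure in coordinates
  have hof : Measurable (fun v : VV (n + 1) => v.ofLp) :=
    (PiLp.volume_preserving_ofLp (Fin (n + 1))).measurable
  set ρ : Measure (Fin (n + 1) → ℝ) := (mu S).map (fun v : VV (n + 1) => v.ofLp) with hρ
  have pρ : IsProbabilityMeasure ρ := Measure.isProbabilityMeasure_map hof.aemeasurable
  have hρd : ρ ≤ (volume S)⁻¹ • volume := by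
    refine Measure.le_iff.2 fun B hB => ?_
    rw [hρ, Measure.map_apply hof hB, mu, Measure.smul_apply, Measure.smul_apply, smul_eq_mul,
      smul_eq_mul]
    gcongr
    refine (Measure.restrict_apply_le _ _).trans_eq ?_
    exact (PiLp.volume_preserving_ofLp (Fin (n + 1))).measure_preimage hB.nullMeasurableSet
  have hη : 0 < δ0 * (volume S).toReal := by positivity
  have hsv := SVX ρ (κ := (volume S)⁻¹) (by simpa using h0.ne') hρd hη
  have hsv2 : Measure.pi (fun _ : Fin (n + 2) => mu S)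
      {X | |DX (toW X)| < δ0 * (volume S).toReal} < c0 := by
    have hpi : Measure.pi (fun _ : Fin (n + 2) => ρ)
        = (Measure.pi fun _ : Fin (n + 2) => mu S).map
          (fun (X : Fin (n + 2) → VV (n + 1)) i => (X i).ofLp) :=
      (Measure.pi_map_pi fun _ => hof.aemeasurable).symm
    have hmm : Measurable (fun (X : Fin (n + 2) → VV (n + 1)) i => (X i).ofLp) :=
      measurable_pi_lambda _ fun i => hof.comp (measurable_pi_apply i)
    rw [hpi, Measure.map_apply hmm
      ((isOpen_lt continuous_DX.abs continuous_const).measurableSet)] at hsv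
    refine lt_of_le_of_lt hsv (lt_of_eq_of_lt ?_ hδ0')
    congr 1
    rw [← mul_assoc, ENNReal.ofReal_mul (by positivity), ENNReal.ofReal_toReal h1.ne]
    rw [mul_comm, mul_assoc, ENNReal.mul_inv_cancel h0.ne' h1.ne, mul_one]
  -- pick a large clique
  obtain ⟨X, hX1, hX2⟩ : ∃ X : Fin (n + 2) → VV (n + 1),
      (∀ t : Fin (k + 1) ↪o Fin (n + 2), X ∘ t ∈ E) ∧
      δ0 * (volume S).toReal ≤ |DX (toW X)| := by
    by_contra hcon
    push Not at hcon
    have : c0 ≤ Measure.pi (fun _ : Fin (n + 2) => mu S)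
        {X | |DX (toW X)| < δ0 * (volume S).toReal} :=
      hc.trans (measure_mono fun X hX => hcon X hX)
    exact absurd this (not_le.2 hsv2)
  have hDX0 : DX (toW X) ≠ 0 := by
    intro h
    rw [h, abs_zero] at hX2
    linarith
  refine ⟨X, affineIndep_of_DX hDX0, ?_, ?_⟩
  · have hKc : IsCompact (convexHull ℝ (Set.range X)) :=
      (Set.finite_range X).isCompact_convexHull ℝ
    have h2 := vol_hull (Nat.succ_pos n) X
    have h3 := (ENNReal.ofReal_le_iff_le_toReal hKc.measure_lt_top.ne).1 h2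
    have h4 : (0 : ℝ) ≤ (1 / ((n + 1 : ℕ) : ℝ)) ^ (n + 1) := by positivity
    have h5 := mul_le_mul_of_nonneg_right hX2 h4
    calc δ0 * (1 / ((n + 1 : ℕ) : ℝ)) ^ (n + 1) * (volume S).toReal
        = δ0 * (volume S).toReal * (1 / ((n + 1 : ℕ) : ℝ)) ^ (n + 1) := by ring
      _ ≤ |DX (toW X)| * (1 / ((n + 1 : ℕ) : ℝ)) ^ (n + 1) := h5
      _ ≤ _ := h3
  · intro s hs
    set t : Fin (k + 1) ↪o Fin (n + 2) := s.orderEmbOfFin hs with ht
    have h2 : X '' (s : Set (Fin (n + 2))) = Set.range (X ∘ t) := by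
      rw [Set.range_comp, ht, Finset.range_orderEmbOfFin]
    rw [h2]
    exact (hE (hX1 t)).2

end Pool.Agent.H452R3.HR
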