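import Mathlib

set_option autoImplicit false
set_option linter.unusedSectionVars false
open MeasureTheory Set Filter Topology
open scoped ENNReal

namespace Pool.Agent.H452R3.HR

/-- determinant of a family of rows -/
noncomputable def DT {d : ℕ} (Y : Fin d → Fin d → ℝ) : ℝ := (Matrix.of Y).det

/-- cofactor vector -/
noncomputable def cof {d : ℕ} (Y : Fin d → Fin d → ℝ) (i : Fin d) : Fin d → ℝ :=
  fun j => (Matrix.of Y).adjugate j i

lemma cof_pair {d : ℕ} (Y : Fin d → Fin d → ℝ) (k i : Fin d) :
    ∑ j, Y k j * cof Y i j = if k = i then DT Y else 0 := by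
  have h := congrFun (congrFun (Matrix.mul_adjugate (Matrix.of Y)) k) i
  rw [Matrix.mul_apply] at h
  simp only [Matrix.of_apply, Matrix.smul_apply, Matrix.one_apply, smul_eq_mul] at h
  rw [show (∑ j, Y k j * cof Y i j) = ∑ j, Y k j * (Matrix.of Y).adjugate j i from rfl, h]
  split_ifs <;> simp [DT]

lemma cof_update {d : ℕ} (Y : Fin d → Fin d → ℝ) (i : Fin d) (v : Fin d → ℝ) :
    cof (Function.update Y i v) i = cof Y i := by
  funext j
  unfold cof
  rw [Matrix.adjugate_apply, Matrix.adjugate_apply]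
  congr 1
  have : (Matrix.of (Function.update Y i v)) = (Matrix.of Y).updateRow i v := rfl
  rw [this, Matrix.updateRow_idem]

lemma DT_update {d : ℕ} (Y : Fin d → Fin d → ℝ) (i : Fin d) (v : Fin d → ℝ) :
    DT (Function.update Y i v) = ∑ j, v j * cof Y i j := by
  have h := cof_pair (Function.update Y i v) i i
  rw [if_pos rfl, cof_update] at h
  rw [← h]
  simp

lemma region {d : ℕ} (Y : Fin d → Fin d → ℝ) (i : Fin d) (hdet : DT Y ≠ 0)
    (hmax : ∀ l, ∑ j, cof Y l j ^ 2 ≤ ∑ j, cof Y i j ^ 2) {η : ℝ} (hη : |DT Y| < η)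
    (hq : 0 < ∑ j, cof Y i j ^ 2) :
    ∃ a : Fin d → ℝ, (∀ l, l ≠ i → |a l| ≤ 1) ∧ |a i| < η / ∑ j, cof Y i j ^ 2 ∧
      ∀ j, Y i j = ∑ l, a l * (Function.update Y i (cof Y i)) l j := by
  classical
  set q := ∑ j, cof Y i j ^ 2 with hqd
  set g : Fin d → ℝ := fun l => ∑ j, cof Y i j * cof Y l j with hg
  refine ⟨fun l => if l = i then DT Y / q else -(g l) / q, ?_, ?_, ?_⟩
  · intro l hl
    simp only [if_neg hl]
    rw [abs_div, abs_neg, abs_of_pos hq, div_le_one hq]
    have h1 : (g l) ^ 2 ≤ q * ∑ j, cof Y l j ^ 2 := by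
      rw [hg, hqd]
      exact Finset.sum_mul_sq_le_sq_mul_sq _ _ _
    have h2 : (g l) ^ 2 ≤ q ^ 2 := by
      refine h1.trans ?_
      rw [sq]
      exact mul_le_mul_of_nonneg_left (hmax l) hq.le
    exact abs_le_of_sq_le_sq h2 hq.le
  · simp only [if_true]
    rw [abs_div, abs_of_pos hq]
    exact (div_lt_div_iff_of_pos_right hq).2 hη
  · set a : Fin d → ℝ := fun l => if l = i then DT Y / q else -(g l) / q with ha
    set B := Function.update Y i (cof Y i) with hB
    set v : Fin d → ℝ := fun j => Y i j - ∑ l, a l * B l j with hv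
    have hpair : ∀ k, ∑ j, v j * cof Y k j = 0 := by
      intro k
      have h1 : ∑ j, v j * cof Y k j
          = ∑ j, Y i j * cof Y k j - ∑ l, a l * ∑ j, B l j * cof Y k j := by
        simp only [hv, sub_mul, Finset.sum_sub_distrib]
        congr 1
        simp only [Finset.sum_mul, Finset.mul_sum]
        rw [Finset.sum_comm]
        refine Finset.sum_congr rfl fun l _ => Finset.sum_congr rfl fun j _ => ?_
        ring
      have h2 : ∀ l, ∑ j, B l j * cof Y k j = if l = i then g k else if l = k then DT Y else 0 := by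
        intro l
        by_cases hl : l = i
        · subst hl
          simp only [hB, Function.update_self, if_true, hg]
        · simp only [hB, Function.update_of_ne hl, if_neg hl]
          exact cof_pair Y l k
      rw [h1, cof_pair]
      simp only [h2]
      rw [← Finset.add_sum_erase _ _ (Finset.mem_univ i)]
      have h3 : ∑ l ∈ Finset.univ.erase i, a l * (if l = i then g k else if l = k then DT Y else 0)
          = ∑ l ∈ Finset.univ.erase i, if l = k then a k * DT Y else 0 := by
        refine Finset.sum_congr rfl fun l hl => ?_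
        rw [if_neg (Finset.ne_of_mem_erase hl)]
        split_ifs with h4
        · rw [h4]
        · simp
      rw [h3, Finset.sum_ite_eq']
      simp only [Finset.mem_erase, Finset.mem_univ, and_true, if_true]
      by_cases hk : k = i
      · subst hk
        have : g k = q := by
          rw [hg, hqd]; exact Finset.sum_congr rfl fun j _ => by ring
        simp only [ne_eq, not_true_eq_false, if_false, if_true, this, ha]
        field_simp
        ring
      · rw [if_neg (fun h => hk h.symm), if_pos hk]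
        simp only [ha, if_true, if_neg hk]
        field_simp
        ring
    have hv0 : v = 0 := by
      have h1 : Matrix.vecMul v (Matrix.of Y).adjugate = 0 := by
        funext k
        rw [Matrix.vecMul, dotProduct]
        exact hpair k
      have h2 : Matrix.vecMul (Matrix.vecMul v (Matrix.of Y).adjugate) (Matrix.of Y) = 0 := by
        rw [h1, Matrix.zero_vecMul]
      rw [Matrix.vecMul_vecMul, Matrix.adjugate_mul, Matrix.vecMul_smul, Matrix.vecMul_one] at h2
      exact (smul_eq_zero.1 h2).resolve_left hdet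
    intro j
    have := congrFun hv0 j
    simp only [hv, Pi.zero_apply] at this
    linarith

/-- the sets for the pivot argument -/
def QQ {d : ℕ} (i : Fin d) (η : ℝ) : Set (Fin d → Fin d → ℝ) :=
  {Y | DT Y ≠ 0 ∧ |DT Y| < η ∧ ∀ l, ∑ j, cof Y l j ^ 2 ≤ ∑ j, cof Y i j ^ 2}

lemma slice_vol {n : ℕ} (i : Fin (n + 1)) (z : Fin n → Fin (n + 1) → ℝ) {η : ℝ} (hη : 0 < η) :
    volume {v : Fin (n + 1) → ℝ | (i.insertNth v z : Fin (n + 1) → Fin (n + 1) → ℝ) ∈ QQ i η}
      ≤ ENNReal.ofReal (2 ^ (n + 1) * η) := by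
  classical
  set Y0 : Fin (n + 1) → Fin (n + 1) → ℝ := i.insertNth (0 : Fin (n + 1) → ℝ) z with hY0
  have hins : ∀ v : Fin (n + 1) → ℝ,
      (i.insertNth v z : Fin (n + 1) → Fin (n + 1) → ℝ) = Function.update Y0 i v := by
    intro v
    rw [hY0]
    funext k
    by_cases hk : k = i
    · subst hk
      rw [Fin.insertNth_apply_same, Function.update_self]
    · obtain ⟨k', rfl⟩ := Fin.exists_succAbove_eq hk
      rw [Fin.insertNth_apply_succAbove, Function.update_of_ne hk, Fin.insertNth_apply_succAbove]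
  set c := cof Y0 i with hc
  set q := ∑ j, c j ^ 2 with hq
  have hcof : ∀ v, cof (Function.update Y0 i v) i = c := fun v => cof_update Y0 i v
  by_cases hq0 : q = 0
  · have hc0 : ∀ j, c j = 0 := by
      intro j
      have := (Finset.sum_eq_zero_iff_of_nonneg (fun j _ => sq_nonneg (c j))).1 hq0 j
        (Finset.mem_univ j)
      exact pow_eq_zero_iff (two_ne_zero) |>.1 this
    have : {v : Fin (n + 1) → ℝ |
        (i.insertNth v z : Fin (n + 1) → Fin (n + 1) → ℝ) ∈ QQ i η} = ∅ := by
      ext v
      simp only [Set.mem_ofPred_eq, Set.mem_empty_iff_false, iff_false]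
      intro h
      apply h.1
      rw [hins, DT_update]
      simp [← hc, hc0]
    rw [this, measure_empty]
    exact zero_le
  have hqpos : 0 < q := lt_of_le_of_ne (Finset.sum_nonneg fun j _ => sq_nonneg _) (Ne.symm hq0)
  set B : Fin (n + 1) → Fin (n + 1) → ℝ := Function.update Y0 i c with hB
  set Ψ : (Fin (n + 1) → ℝ) →ₗ[ℝ] (Fin (n + 1) → ℝ) := Matrix.toLin' (Matrix.of B).transpose with hΨ
  have hΨa : ∀ a j, Ψ a j = ∑ l, a l * B l j := by
    intro a j
    rw [hΨ, Matrix.toLin'_apply, Matrix.mulVec, dotProduct]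
    refine Finset.sum_congr rfl fun l _ => ?_
    rw [Matrix.transpose_apply, Matrix.of_apply, mul_comm]
  have hΨdet : LinearMap.det Ψ = q := by
    rw [hΨ, LinearMap.det_toLin', Matrix.det_transpose]
    have : (Matrix.of B).det = DT B := rfl
    rw [this, hB, DT_update, ← hc, hq]
    exact Finset.sum_congr rfl fun j _ => by ring
  set I : Fin (n + 1) → Set ℝ := fun l => if l = i then Set.Ioo (-(η / q)) (η / q)
    else Set.Icc (-1) 1 with hI
  have hsub : {v : Fin (n + 1) → ℝ |
      (i.insertNth v z : Fin (n + 1) → Fin (n + 1) → ℝ) ∈ QQ i η} ⊆ Ψ '' (Set.pi Set.univ I) := by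
    intro v hv
    have hv' : (i.insertNth v z : Fin (n + 1) → Fin (n + 1) → ℝ) ∈ QQ i η := hv
    rw [hins] at hv'
    obtain ⟨h1, h2, h3⟩ := hv'
    have h4 : ∑ j, cof (Function.update Y0 i v) i j ^ 2 = q := by rw [hcof]
    obtain ⟨a, ha1, ha2, ha3⟩ := region _ i h1 h3 h2 (by rw [h4]; exact hqpos)
    refine ⟨a, ?_, ?_⟩
    · intro l _
      simp only [hI]
      split_ifs with hl
      · subst hl
        rw [h4] at ha2
        exact abs_lt.1 ha2
      · exact abs_le.1 (ha1 l hl)
    · funext j
      rw [hΨa]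
      have := ha3 j
      rw [Function.update_self, hcof, Function.update_idem] at this
      exact this.symm
  refine (measure_mono hsub).trans ?_
  rw [Measure.addHaar_image_linearMap, hΨdet, abs_of_pos hqpos, volume_pi_pi,
    Fin.prod_univ_succAbove _ i]
  have h1 : volume (I i) = ENNReal.ofReal (2 * (η / q)) := by
    simp only [hI, if_true, Real.volume_Ioo]
    congr 1
    ring
  have h2 : ∀ l : Fin n, volume (I (i.succAbove l)) = ENNReal.ofReal 2 := by
    intro l
    simp only [hI, if_neg (Fin.succAbove_ne i l), Real.volume_Icc]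
    congr 1
    ring
  rw [h1]
  simp only [h2]
  rw [Finset.prod_const, Finset.card_univ, Fintype.card_fin,
    ← ENNReal.ofReal_pow (by norm_num), ← ENNReal.ofReal_mul (by positivity),
    ← ENNReal.ofReal_mul (by positivity)]
  apply ENNReal.ofReal_le_ofReal
  apply le_of_eq
  field_simp
  ring

lemma continuous_DT {d : ℕ} : Continuous (DT : (Fin d → Fin d → ℝ) → ℝ) := by
  unfold DT
  refine Continuous.matrix_det ?_
  exact continuous_id

lemma continuous_cof {d : ℕ} (i j : Fin d) :
    Continuous (fun Y : Fin d → Fin d → ℝ => cof Y i j) := by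
  unfold cof
  have : Continuous (fun Y : Fin d → Fin d → ℝ => (Matrix.of Y).adjugate) :=
    Continuous.matrix_adjugate continuous_id
  exact this.matrix_elem j i

lemma measurable_QQ {d : ℕ} (i : Fin d) (η : ℝ) : MeasurableSet (QQ i η) := by
  have h1 : MeasurableSet {Y : Fin d → Fin d → ℝ | DT Y ≠ 0} :=
    (isOpen_ne_fun continuous_DT continuous_const).measurableSet
  have h2 : MeasurableSet {Y : Fin d → Fin d → ℝ | |DT Y| < η} :=
    (isOpen_lt continuous_DT.abs continuous_const).measurableSet
  have h3 : MeasurableSet {Y : Fin d → Fin d → ℝ |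
      ∀ l, ∑ j, cof Y l j ^ 2 ≤ ∑ j, cof Y i j ^ 2} := by
    have : {Y : Fin d → Fin d → ℝ | ∀ l, ∑ j, cof Y l j ^ 2 ≤ ∑ j, cof Y i j ^ 2}
        = ⋂ l, {Y | ∑ j, cof Y l j ^ 2 ≤ ∑ j, cof Y i j ^ 2} := by
      ext Y; simp
    rw [this]
    refine MeasurableSet.iInter fun l => (isClosed_le ?_ ?_).measurableSet
    · exact continuous_finsetSum _ fun j _ => (continuous_cof l j).pow 2
    · exact continuous_finsetSum _ fun j _ => (continuous_cof i j).pow 2
  exact h1.inter (h2.inter h3)

/-- identity matrix as a function -/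
def idf (d : ℕ) : Fin d → Fin d → ℝ := fun a b => if a = b then 1 else 0

/-- singular matrices form a null set -/
lemma null_DT {d : ℕ} :
    volume {Y : Fin d → Fin d → ℝ | DT Y = 0} = 0 := by
  classical
  set D : Set ((Fin d → Fin d → ℝ) × ℝ) := {p | DT (p.1 + p.2 • idf d) = 0} with hD
  have hcont : Continuous (fun p : (Fin d → Fin d → ℝ) × ℝ => DT (p.1 + p.2 • idf d)) := by
    refine continuous_DT.comp ?_
    refine continuous_fst.add ?_
    exact continuous_snd.smul continuous_const
  have hDm : MeasurableSet D := (isClosed_eq hcont continuous_const).measurableSet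
  have h1 : ((volume : Measure (Fin d → Fin d → ℝ)).prod (volume : Measure ℝ)) D = 0 := by
    rw [Measure.measure_prod_null hDm]
    refine ae_of_all _ fun Y => ?_
    show volume {τ : ℝ | DT (Y + τ • idf d) = 0} = 0
    have hfin : {τ : ℝ | DT (Y + τ • idf d) = 0}
        = {τ | (-(Matrix.of Y)).charpoly.IsRoot τ} := by
      ext τ
      rw [Set.mem_ofPred_eq, Set.mem_ofPred_eq, Polynomial.IsRoot.def, Matrix.eval_charpoly]
      have : (Matrix.scalar (Fin d)) τ - -Matrix.of Y = Matrix.of (Y + τ • idf d) := by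
        ext a b
        simp only [Matrix.scalar_apply, Matrix.sub_apply, Matrix.diagonal_apply, Matrix.neg_apply,
          Matrix.of_apply, Pi.add_apply, Pi.smul_apply, idf, smul_eq_mul]
        split_ifs <;> ring
      rw [this]
      rfl
    rw [hfin]
    have hne0 : (-(Matrix.of Y)).charpoly ≠ 0 := (Matrix.charpoly_monic _).ne_zero
    exact (Polynomial.finite_setOfPred_isRoot hne0).measure_zero _
  have h2 := Measure.measure_ae_null_of_prod_null (μ := (volume : Measure ℝ))
    (ν := (volume : Measure (Fin d → Fin d → ℝ))) (s := Prod.swap ⁻¹' D) (by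
      have : ((volume : Measure ℝ).prod (volume : Measure (Fin d → Fin d → ℝ)))
          = ((volume : Measure (Fin d → Fin d → ℝ)).prod (volume : Measure ℝ)).map Prod.swap :=
        (Measure.prod_swap).symm
      rw [this, Measure.map_apply measurable_swap (measurable_swap hDm)]
      exact h1)
  obtain ⟨τ, hτ⟩ := h2.exists
  have h3 : (Prod.mk τ ⁻¹' (Prod.swap ⁻¹' D)) = (fun Y : Fin d → Fin d → ℝ =>
      Y + (τ • idf d)) ⁻¹' {Y : Fin d → Fin d → ℝ | DT Y = 0} := rfl
  have h4 : volume (Prod.mk τ ⁻¹' (Prod.swap ⁻¹' D)) = 0 := hτ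
  rw [h3, measure_preimage_add_right] at h4
  exact h4

lemma pi_ac {W : Type*} [MeasurableSpace W] {ρ μ : Measure W} [SigmaFinite ρ] [SigmaFinite μ]
    (h : ρ ≪ μ) : ∀ k : ℕ, Measure.pi (fun _ : Fin k => ρ) ≪ Measure.pi (fun _ : Fin k => μ) := by
  intro k
  induction k with
  | zero =>
    rw [Measure.pi_of_empty, Measure.pi_of_empty]
  | succ k ih =>
    have h1 := (measurePreserving_piFinSuccAbove (fun _ : Fin (k + 1) => ρ) 0).symm
    have h2 := (measurePreserving_piFinSuccAbove (fun _ : Fin (k + 1) => μ) 0).symm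
    rw [← h1.map_eq, ← h2.map_eq]
    exact (h.prod ih).map (MeasurableEquiv.measurable _)

/-- random simplices with one vertex at the origin are rarely small -/
lemma SV {n : ℕ} (ρ : Measure (Fin (n + 1) → ℝ)) [IsProbabilityMeasure ρ] {κ : ℝ≥0∞}
    (hκ : κ ≠ ⊤) (hρ : ρ ≤ κ • volume) {η : ℝ} (hη : 0 < η) :
    Measure.pi (fun _ : Fin (n + 1) => ρ) {Y | |DT Y| < η}
      ≤ (n + 1 : ℕ) * (κ * ENNReal.ofReal (2 ^ (n + 1) * η)) := by
  classical
  have hcover : {Y : Fin (n + 1) → Fin (n + 1) → ℝ | |DT Y| < η}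
      ⊆ {Y | DT Y = 0} ∪ ⋃ i, QQ i η := by
    intro Y hY
    by_cases h0 : DT Y = 0
    · exact Or.inl h0
    · right
      obtain ⟨i, -, hi⟩ := Finset.exists_max_image (Finset.univ : Finset (Fin (n + 1)))
        (fun i => ∑ j, cof Y i j ^ 2) Finset.univ_nonempty
      exact Set.mem_iUnion.2 ⟨i, h0, hY, fun l => hi l (Finset.mem_univ l)⟩
  have hac : Measure.pi (fun _ : Fin (n + 1) => ρ) ≪ volume := by
    have h1 : ρ ≪ volume := Measure.absolutelyContinuous_of_le_smul hρ
    exact pi_ac h1 (n + 1)
  have hnull : Measure.pi (fun _ : Fin (n + 1) => ρ)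
      {Y : Fin (n + 1) → Fin (n + 1) → ℝ | DT Y = 0} = 0 := hac null_DT
  have hQ : ∀ i : Fin (n + 1), Measure.pi (fun _ : Fin (n + 1) => ρ) (QQ i η)
      ≤ κ * ENNReal.ofReal (2 ^ (n + 1) * η) := by
    intro i
    have hmp := measurePreserving_piFinSuccAbove (fun _ : Fin (n + 1) => ρ) i
    have hQm := measurable_QQ i η
    have h1 : Measure.pi (fun _ : Fin (n + 1) => ρ) (QQ i η)
        = (ρ.prod (Measure.pi fun _ : Fin n => ρ))
          ((MeasurableEquiv.piFinSuccAbove (fun _ => Fin (n + 1) → ℝ) i).symm ⁻¹' (QQ i η)) := by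
      rw [← hmp.symm.measure_preimage hQm.nullMeasurableSet]
    rw [h1]
    have hm2 : MeasurableSet
        ((MeasurableEquiv.piFinSuccAbove (fun _ => Fin (n + 1) → ℝ) i).symm ⁻¹' (QQ i η)) :=
      (MeasurableEquiv.measurable _) hQm
    rw [Measure.prod_apply_symm hm2]
    calc _ ≤ ∫⁻ _z : Fin n → Fin (n + 1) → ℝ, κ * ENNReal.ofReal (2 ^ (n + 1) * η)
          ∂(Measure.pi fun _ : Fin n => ρ) := by
          refine lintegral_mono fun z => ?_
          calc _ ≤ (κ • volume) ((fun v => (v, z)) ⁻¹'
                ((MeasurableEquiv.piFinSuccAbove (fun _ => Fin (n + 1) → ℝ) i).symm ⁻¹'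
                  (QQ i η))) := hρ _
            _ ≤ _ := by
                rw [Measure.smul_apply, smul_eq_mul]
                gcongr
                exact slice_vol i z hη
      _ = _ := by rw [lintegral_const, measure_univ, mul_one]
  calc Measure.pi (fun _ : Fin (n + 1) => ρ) {Y | |DT Y| < η}
      ≤ Measure.pi (fun _ : Fin (n + 1) => ρ) ({Y | DT Y = 0} ∪ ⋃ i, QQ i η) :=
        measure_mono hcover
    _ ≤ 0 + ∑ i : Fin (n + 1), Measure.pi (fun _ : Fin (n + 1) => ρ) (QQ i η) := by
        refine (measure_union_le _ _).trans ?_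
        gcongr
        · exact hnull.le
        · exact measure_iUnion_fintype_le _ _
    _ ≤ ∑ _i : Fin (n + 1), κ * ENNReal.ofReal (2 ^ (n + 1) * η) := by
        rw [zero_add]
        exact Finset.sum_le_sum fun i _ => hQ i
    _ = _ := by
        rw [Finset.sum_const, Finset.card_univ, Fintype.card_fin, nsmul_eq_mul]

/-- determinant of the edge vectors from the first point -/
noncomputable def DX {d : ℕ} (X : Fin (d + 1) → Fin d → ℝ) : ℝ :=
  DT fun i => X i.succ - X 0

lemma continuous_DX {d : ℕ} : Continuous (DX : (Fin (d + 1) → Fin d → ℝ) → ℝ) := by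
  refine continuous_DT.comp ?_
  refine continuous_pi fun i => ?_
  exact (continuous_apply _).sub (continuous_apply _)

/-- random simplices are rarely small -/
lemma SVX {n : ℕ} (ρ : Measure (Fin (n + 1) → ℝ)) [IsProbabilityMeasure ρ] {κ : ℝ≥0∞}
    (hκ : κ ≠ ⊤) (hρ : ρ ≤ κ • volume) {η : ℝ} (hη : 0 < η) :
    Measure.pi (fun _ : Fin (n + 2) => ρ) {X | |DX X| < η}
      ≤ (n + 1 : ℕ) * (κ * ENNReal.ofReal (2 ^ (n + 1) * η)) := by
  classical
  have hS : MeasurableSet {X : Fin (n + 2) → Fin (n + 1) → ℝ | |DX X| < η} :=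
    (isOpen_lt continuous_DX.abs continuous_const).measurableSet
  have hmp := measurePreserving_piFinSuccAbove (fun _ : Fin (n + 2) => ρ) 0
  have h1 : Measure.pi (fun _ : Fin (n + 2) => ρ) {X | |DX X| < η}
      = (ρ.prod (Measure.pi fun _ : Fin (n + 1) => ρ))
        ((MeasurableEquiv.piFinSuccAbove (fun _ => Fin (n + 1) → ℝ) 0).symm ⁻¹'
          {X | |DX X| < η}) := by
    rw [← hmp.symm.measure_preimage hS.nullMeasurableSet]
  rw [h1]
  have hm2 : MeasurableSet ((MeasurableEquiv.piFinSuccAbove (fun _ => Fin (n + 1) → ℝ)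
      (0 : Fin (n + 2))).symm ⁻¹' {X : Fin (n + 2) → Fin (n + 1) → ℝ | |DX X| < η}) :=
    (MeasurableEquiv.measurable _) hS
  rw [Measure.prod_apply hm2]
  calc _ ≤ ∫⁻ _x : Fin (n + 1) → ℝ, (n + 1 : ℕ) * (κ * ENNReal.ofReal (2 ^ (n + 1) * η)) ∂ρ := by
        refine lintegral_mono fun x => ?_
        have hsub : Measurable (fun v : Fin (n + 1) → ℝ => v - x) := measurable_id.sub_const x
        have hp : IsProbabilityMeasure (ρ.map fun v => v - x) :=
          Measure.isProbabilityMeasure_map hsub.aemeasurable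
        have hd : ρ.map (fun v => v - x) ≤ κ • volume := by
          refine Measure.le_iff.2 fun s hs => ?_
          rw [Measure.map_apply hsub hs]
          refine (hρ _).trans ?_
          rw [Measure.smul_apply, Measure.smul_apply]
          have : volume ((fun v : Fin (n + 1) → ℝ => v - x) ⁻¹' s) = volume s := by
            simp only [sub_eq_add_neg]
            exact measure_preimage_add_right _ _ _
          rw [this]
        have h2 := SV (ρ.map fun v => v - x) hκ hd hη
        have h3 : Measure.pi (fun _ : Fin (n + 1) => ρ.map fun v => v - x)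
            = (Measure.pi fun _ : Fin (n + 1) => ρ).map (fun Y i => Y i - x) :=
          (Measure.pi_map_pi fun _ => hsub.aemeasurable).symm
        have hm3 : Measurable (fun (Y : Fin (n + 1) → Fin (n + 1) → ℝ) i => Y i - x) :=
          measurable_pi_lambda _ fun i => Measurable.sub_const
            (f := fun Y : Fin (n + 1) → Fin (n + 1) → ℝ => Y i) (measurable_pi_apply i) x
        rw [h3, Measure.map_apply hm3
          ((isOpen_lt continuous_DT.abs continuous_const).measurableSet)] at h2
        exact h2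
    _ = _ := by rw [lintegral_const, measure_univ, mul_one]

end Pool.Agent.H452R3.HR
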