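import Pool.Agent.H452R3.HR.Sample
import Pool.Agent.H452R3.HR.Analytic
import Pool.Agent.H452R3.HR.Vol

set_option autoImplicit false
set_option linter.unusedSectionVars false
open MeasureTheory Set Filter Topology
open scoped ENNReal

namespace Pool.Agent.H452R3.HR

/-- Euclidean space -/
abbrev VV (d : ℕ) := EuclideanSpace ℝ (Fin d)

/-- the set of tuples whose convex hull lies in `S` -/
def CS {d : ℕ} (r : ℕ) (S : Set (VV d)) : Set (Fin r → VV d) :=
  {x | (∀ i, x i ∈ S) ∧ convexHull ℝ (Set.range x) ⊆ S}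

lemma hull_range {d r : ℕ} (x : Fin r → VV d) :
    convexHull ℝ (Set.range x) = (fun w : Fin r → ℝ => ∑ i, w i • x i) '' stdSimplex ℝ (Fin r) := by
  classical
  have h1 : (fun w : Fin r → ℝ => ∑ i, w i • x i)
      = ⇑(∑ i, (LinearMap.proj (R := ℝ) (φ := fun _ : Fin r => ℝ) i).smulRight (x i)) := by
    funext w
    simp
  rw [h1, ← convexHull_basis_eq_stdSimplex, LinearMap.image_convexHull, ← Set.range_comp]
  congr 1
  congr 1
  funext i
  simp

lemma CS_eq {d r : ℕ} (S : Set (VV d)) :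
    CS r S = {x | ∀ w ∈ stdSimplex ℝ (Fin r), ∑ i, w i • x i ∈ S} := by
  ext x
  constructor
  · rintro ⟨_, h2⟩ w hw
    apply h2
    rw [hull_range]
    exact ⟨w, hw, rfl⟩
  · intro h
    have h2 : convexHull ℝ (Set.range x) ⊆ S := by
      rw [hull_range]
      rintro _ ⟨w, hw, rfl⟩
      exact h w hw
    exact ⟨fun i => h2 (subset_convexHull ℝ _ ⟨i, rfl⟩), h2⟩

lemma CS_null {d r : ℕ} {S : Set (VV d)} (hS : MeasurableSet S) (μ : Measure (Fin r → VV d))
    [IsFiniteMeasure μ] : NullMeasurableSet (CS r S) μ := by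
  rw [← compl_compl (CS r S)]
  refine NullMeasurableSet.compl (nullMeasurable_of_analytic ?_)
  set D : Set ((Fin r → VV d) × (Fin r → ℝ)) :=
    {p | p.2 ∈ stdSimplex ℝ (Fin r) ∧ ∑ i, p.2 i • p.1 i ∈ Sᶜ} with hD
  have h1 : (CS r S)ᶜ = Prod.fst '' D := by
    ext x
    rw [Set.mem_compl_iff, CS_eq]
    simp only [Set.mem_ofPred_eq, not_forall, Set.mem_image, hD, Prod.exists, exists_and_right,
      exists_eq_right, exists_prop]
    rfl
  rw [h1]
  have hDm : MeasurableSet D := by
    refine MeasurableSet.inter ?_ ?_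
    · exact measurable_snd (isClosed_stdSimplex ℝ (Fin r)).measurableSet
    · have hc : Continuous (fun p : (Fin r → VV d) × (Fin r → ℝ) => ∑ i, p.2 i • p.1 i) := by
        fun_prop
      exact hc.measurable hS.compl
  exact hDm.analyticSet_image measurable_fst

/-- Vandermonde barycentric coordinates -/
noncomputable def MM (r : ℕ) (i : ℕ) (j : Fin r) : ℝ :=
  ((i : ℝ) + 1) ^ (j : ℕ) / ∑ l : Fin r, ((i : ℝ) + 1) ^ (l : ℕ)

lemma sum_pos' {r : ℕ} (hr : 0 < r) (i : ℕ) : 0 < ∑ l : Fin r, ((i : ℝ) + 1) ^ (l : ℕ) := by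
  have : Nonempty (Fin r) := ⟨⟨0, hr⟩⟩
  exact Finset.sum_pos (fun l _ => by positivity) Finset.univ_nonempty

lemma MM_mem {r : ℕ} (hr : 0 < r) (i : ℕ) : MM r i ∈ stdSimplex ℝ (Fin r) := by
  constructor
  · intro j
    exact div_nonneg (by positivity) (sum_pos' hr i).le
  · unfold MM
    rw [← Finset.sum_div, div_self (sum_pos' hr i).ne']

/-- the linear map sending a tuple to points with the given barycentric coordinates -/
noncomputable def LL {d : ℕ} (r : ℕ) {n : ℕ} (c : Fin n → ℕ) :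
    (Fin r → VV d) →ₗ[ℝ] (Fin n → VV d) :=
  LinearMap.pi fun a => ∑ j, MM r (c a) j • LinearMap.proj j

lemma LL_apply {d r n : ℕ} (c : Fin n → ℕ) (x : Fin r → VV d) (a : Fin n) :
    LL r c x a = ∑ j, MM r (c a) j • x j := by
  simp [LL]

lemma LL_CS {d r n : ℕ} (hr : 0 < r) {S : Set (VV d)} (c : Fin n → ℕ) {x : Fin r → VV d}
    (hx : x ∈ CS r S) : LL r c x ∈ CS n S := by
  have h1 : ∀ a, LL r c x a ∈ convexHull ℝ (Set.range x) := by
    intro a
    rw [hull_range, LL_apply]
    exact ⟨MM r (c a), MM_mem hr _, rfl⟩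
  refine ⟨fun a => hx.2 (h1 a), ?_⟩
  refine (convexHull_min ?_ (convex_convexHull ℝ _)).trans hx.2
  rintro _ ⟨a, rfl⟩
  exact h1 a

lemma LL_inj {d r : ℕ} (hr : 0 < r) {c : Fin r → ℕ} (hc : Function.Injective c) :
    Function.Injective (LL (d := d) r c) := by
  rw [← LinearMap.ker_eq_bot, LinearMap.ker_eq_bot']
  intro x hx
  have h1 : ∀ (q : Fin d) (a : Fin r), ∑ j : Fin r, ((c a : ℝ) + 1) ^ (j : ℕ) * x j q = 0 := by
    intro q a
    have h2 : LL r c x a q = 0 := by rw [hx]; rfl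
    rw [LL_apply] at h2
    have h3 : (∑ j, MM r (c a) j • x j) q = ∑ j, MM r (c a) j * x j q := by
      simp
    rw [h3] at h2
    have h4 : ∑ j, MM r (c a) j * x j q
        = (∑ j : Fin r, ((c a : ℝ) + 1) ^ (j : ℕ) * x j q) /
          ∑ l : Fin r, ((c a : ℝ) + 1) ^ (l : ℕ) := by
      rw [Finset.sum_div]
      refine Finset.sum_congr rfl fun j _ => ?_
      unfold MM
      ring
    rw [h4, div_eq_zero_iff] at h2
    exact h2.resolve_right (sum_pos' hr _).ne'
  have hdet : (Matrix.vandermonde fun a : Fin r => (c a : ℝ) + 1).det ≠ 0 := by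
    rw [Matrix.det_vandermonde_ne_zero_iff]
    intro a b hab
    have : (c a : ℝ) = c b := by simpa using hab
    exact hc (by exact_mod_cast this)
  funext j
  ext q
  have h5 : Matrix.mulVec (Matrix.vandermonde fun a : Fin r => (c a : ℝ) + 1)
      (fun j => x j q) = 0 := by
    funext a
    rw [Matrix.mulVec, dotProduct]
    exact h1 q a
  have h6 := Matrix.eq_zero_of_mulVec_eq_zero hdet h5
  exact congrFun h6 j

lemma LL_det {d r : ℕ} (hr : 0 < r) {c : Fin r → ℕ} (hc : Function.Injective c) :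
    LinearMap.det (LL (d := d) r c) ≠ 0 := by
  have := LinearEquiv.isUnit_det' (LinearEquiv.ofInjectiveEndo _ (LL_inj (d := d) hr hc))
  exact this.ne_zero

/-- the uniform probability measure on `S` -/
noncomputable def mu {d : ℕ} (S : Set (VV d)) : Measure (VV d) :=
  (volume S)⁻¹ • volume.restrict S

lemma mu_prob {d : ℕ} {S : Set (VV d)} (h0 : 0 < volume S) (h1 : volume S < ⊤) :
    IsProbabilityMeasure (mu S) := by
  constructor
  unfold mu
  rw [Measure.smul_apply, Measure.restrict_apply_univ, smul_eq_mul,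
    ENNReal.inv_mul_cancel h0.ne' h1.ne]

lemma pi_mu {d r : ℕ} {S : Set (VV d)} (h0 : 0 < volume S) (h1 : volume S < ⊤) :
    Measure.pi (fun _ : Fin r => mu S)
      = ((volume S)⁻¹) ^ r • (volume : Measure (Fin r → VV d)).restrict
        (Set.pi Set.univ fun _ => S) := by
  have := mu_prob h0 h1
  refine Measure.pi_eq fun s hs => ?_
  rw [Measure.smul_apply, Measure.restrict_apply (MeasurableSet.univ_pi hs), ← Set.pi_inter_distrib,
    volume_pi_pi, smul_eq_mul]
  have h2 : ∀ i : Fin r, mu S (s i) = (volume S)⁻¹ * volume (s i ∩ S) := by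
    intro i
    unfold mu
    rw [Measure.smul_apply, Measure.restrict_apply (hs i), smul_eq_mul]
  simp only [h2]
  rw [Finset.prod_mul_distrib, Finset.prod_const, Finset.card_univ, Fintype.card_fin]

lemma dom_LL {d r : ℕ} (hr : 0 < r) {S : Set (VV d)} (hS : MeasurableSet S)
    (h0 : 0 < volume S) (h1 : volume S < ⊤) {c : Fin r → ℕ} (hc : Function.Injective c)
    {E : Set (Fin r → VV d)} (hE : E ⊆ CS r S) (hEm : MeasurableSet E)
    {B : Set (Fin r → VV d)} (hB : MeasurableSet B) :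
    Measure.pi (fun _ : Fin r => mu S) (E ∩ LL r c ⁻¹' B)
      ≤ ENNReal.ofReal |(LinearMap.det (LL (d := d) r c))⁻¹| *
        Measure.pi (fun _ : Fin r => mu S) B := by
  have hLm : Measurable (LL (d := d) r c) :=
    (LinearMap.continuous_of_finiteDimensional _).measurable
  have hSr : MeasurableSet (Set.pi Set.univ fun _ : Fin r => S) := MeasurableSet.univ_pi fun _ => hS
  rw [pi_mu h0 h1, Measure.smul_apply, Measure.smul_apply,
    Measure.restrict_apply (hEm.inter (hLm hB)), Measure.restrict_apply hB, smul_eq_mul,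
    smul_eq_mul]
  have h2 : volume (E ∩ LL r c ⁻¹' B ∩ Set.pi Set.univ fun _ : Fin r => S)
      ≤ ENNReal.ofReal |(LinearMap.det (LL (d := d) r c))⁻¹| *
        volume (B ∩ Set.pi Set.univ fun _ : Fin r => S) := by
    rw [← Measure.addHaar_preimage_linearMap volume (LL_det hr hc)]
    refine measure_mono ?_
    rintro x ⟨⟨hx1, hx2⟩, _⟩
    exact ⟨hx2, fun i _ => (LL_CS hr c (hE hx1)).1 i⟩
  calc _ ≤ (volume S)⁻¹ ^ r * (ENNReal.ofReal |(LinearMap.det (LL (d := d) r c))⁻¹| *
        volume (B ∩ Set.pi Set.univ fun _ : Fin r => S)) := by gcongr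
    _ = _ := by ring

end Pool.Agent.H452R3.HR
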