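import Pool.Agent.H452R3.HR.Descent

set_option autoImplicit false
set_option linter.unusedSectionVars false
open MeasureTheory Set Filter Topology
open scoped ENNReal

namespace Pool.Agent.H452R3.HR

variable {r m : ℕ}

/-- restriction of coordinates -/
def res (A : Set (Fin r → ℕ)) (R : Arr r) : A → Bool := fun s => R s

lemma meas_res (A : Set (Fin r → ℕ)) :
    @Measurable _ _ (Alg A) MeasurableSpace.pi (res A) := by
  refine @measurable_pi_lambda _ _ _ (Alg A) _ _ fun s => ?_
  exact meas_eval s.2

lemma Alg_le_comap (A : Set (Fin r → ℕ)) :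
    Alg A ≤ MeasurableSpace.comap (res A) MeasurableSpace.pi := by
  refine iSup₂_le fun s hs => ?_
  rintro B ⟨B', hB', rfl⟩
  refine ⟨(fun f : A → Bool => f ⟨s, hs⟩) ⁻¹' B', ?_, rfl⟩
  exact (measurable_pi_apply (⟨s, hs⟩ : A)) hB'

lemma cyl_clopen {A : Set (Fin r → ℕ)} {B : Set (A → Bool)}
    (hB : B ∈ measurableCylinders (fun _ : A => Bool)) : IsClopen (res A ⁻¹' B) := by
  rw [mem_measurableCylinders] at hB
  obtain ⟨I, S, _, rfl⟩ := hB
  have h1 : res A ⁻¹' (cylinder I S) = (fun (R : Arr r) (i : I) => R (i : A)) ⁻¹' S := by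
    ext R
    simp [cylinder, res, Finset.restrict]
    rfl
  rw [h1]
  refine (isClopen_discrete S).preimage ?_
  fun_prop

/-- domination passes from cylinders to the generated σ-algebra -/
lemma dom_ext {P ν : Measure (Arr r)} [IsFiniteMeasure P] [IsFiniteMeasure ν] {C : ℝ≥0∞}
    (hC : C ≠ ⊤) {A : Set (Fin r → ℕ)}
    (h : ∀ B ∈ measurableCylinders (fun _ : A => Bool), ν (res A ⁻¹' B) ≤ C * P (res A ⁻¹' B)) :
    ∀ G, MeasurableSet[Alg A] G → ν G ≤ C * P G := by
  intro G hG
  obtain ⟨G', hG', rfl⟩ := Alg_le_comap A _ hG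
  have hres : Measurable (res A) := (meas_res A).mono (Alg_le A) le_rfl
  set μ : Measure (A → Bool) := ν.map (res A) + P.map (res A) with hμ
  have hgen : (MeasurableSpace.pi : MeasurableSpace (A → Bool))
      = MeasurableSpace.generateFrom (measurableCylinders fun _ : A => Bool) :=
    generateFrom_measurableCylinders.symm
  have key : ∀ ε : ℝ≥0∞, 0 < ε → ν (res A ⁻¹' G') ≤ C * P (res A ⁻¹' G') + (C * ε + ε) := by
    intro ε hε
    obtain ⟨B, hB, hBε⟩ := exists_measure_symmDiff_lt_of_generateFrom_isSetRing (μ := μ)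
      isSetRing_measurableCylinders
      ⟨{Set.univ}, Set.countable_singleton _, by
        rw [Set.singleton_subset_iff]; exact univ_mem_measurableCylinders _, by simp⟩
      hgen hG' hε
    have hBm : MeasurableSet B := by
      rw [hgen]; exact MeasurableSpace.measurableSet_generateFrom hB
    have hsd : MeasurableSet (symmDiff B G') := hBm.symmDiff hG'
    have h1 : ν (res A ⁻¹' (symmDiff B G')) ≤ ε := by
      have : (ν.map (res A)) (symmDiff B G') ≤ μ (symmDiff B G') := by
        rw [hμ, Measure.add_apply]; exact le_self_add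
      rw [Measure.map_apply hres hsd] at this
      exact this.trans hBε.le
    have h2 : P (res A ⁻¹' (symmDiff B G')) ≤ ε := by
      have : (P.map (res A)) (symmDiff B G') ≤ μ (symmDiff B G') := by
        rw [hμ, Measure.add_apply]; exact le_add_self
      rw [Measure.map_apply hres hsd] at this
      exact this.trans hBε.le
    have h3 : ν (res A ⁻¹' G') ≤ ν (res A ⁻¹' B) + ε := by
      calc ν (res A ⁻¹' G') ≤ ν (res A ⁻¹' B ∪ res A ⁻¹' (symmDiff B G')) := by
            refine measure_mono ?_
            intro R hR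
            by_cases hb : res A R ∈ B
            · exact Or.inl hb
            · exact Or.inr (Or.inr ⟨hR, hb⟩)
        _ ≤ _ := (measure_union_le _ _).trans (by gcongr)
    have h4 : P (res A ⁻¹' B) ≤ P (res A ⁻¹' G') + ε := by
      calc P (res A ⁻¹' B) ≤ P (res A ⁻¹' G' ∪ res A ⁻¹' (symmDiff B G')) := by
            refine measure_mono ?_
            intro R hR
            by_cases hb : res A R ∈ G'
            · exact Or.inl hb
            · exact Or.inr (Or.inl ⟨hR, hb⟩)
        _ ≤ _ := (measure_union_le _ _).trans (by gcongr)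
    calc ν (res A ⁻¹' G') ≤ ν (res A ⁻¹' B) + ε := h3
      _ ≤ C * P (res A ⁻¹' B) + ε := by gcongr; exact h B hB
      _ ≤ C * (P (res A ⁻¹' G') + ε) + ε := by gcongr
      _ = C * P (res A ⁻¹' G') + (C * ε + ε) := by rw [mul_add, add_assoc]
  have hlim : Tendsto (fun ε : ℝ≥0∞ => C * P (res A ⁻¹' G') + (C * ε + ε)) (𝓝[>] 0)
      (𝓝 (C * P (res A ⁻¹' G') + (C * 0 + 0))) := by
    refine Tendsto.mono_left ?_ nhdsWithin_le_nhds
    refine tendsto_const_nhds.add ?_
    refine Tendsto.add ?_ tendsto_id
    exact ENNReal.Tendsto.const_mul tendsto_id (Or.inr hC)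
  have h5 : ν (res A ⁻¹' G') ≤ C * P (res A ⁻¹' G') + (C * 0 + 0) := by
    refine ge_of_tendsto hlim ?_
    filter_upwards [self_mem_nhdsWithin] with ε hε
    exact key ε hε
  simpa using h5

theorem limit_contra (hr : r ≤ m) {C : ℝ≥0∞} (hC : C ≠ ⊤)
    (Pn νn : ℕ → ProbabilityMeasure (Arr r))
    (hinv : ∀ n, ∀ σ : ℕ → ℕ, Function.Injective σ →
      (Pn n : Measure (Arr r)).map (shift σ) = (Pn n : Measure (Arr r)))
    (hdom : ∀ n, ∀ t : Fin r ↪o Fin m, ∀ A, MeasurableSet[Alg (U m (rg t))] A →
      (νn n : Measure (Arr r)) A ≤ C * (Pn n : Measure (Arr r)) A)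
    (hone : ∀ n, ∀ t : Fin r ↪o Fin m,
      (νn n : Measure (Arr r)) {R | R (fun a => (t a : ℕ)) = false} = 0)
    (hzero : Tendsto (fun n => (Pn n : Measure (Arr r))
      (⋂ t : Fin r ↪o Fin m, {R | R (fun a => (t a : ℕ)) = true})) atTop (𝓝 0)) : False := by
  classical
  set F : Ultrafilter ℕ := hyperfilter ℕ with hF
  have hFle : (F : Filter ℕ) ≤ atTop := by
    rw [← Nat.cofinite_eq_atTop]; exact hyperfilter_le_cofinite
  obtain ⟨P, -, hP⟩ := isCompact_univ.ultrafilter_le_nhds (F.map Pn) (by simp)
  obtain ⟨ν, -, hν⟩ := isCompact_univ.ultrafilter_le_nhds (F.map νn) (by simp)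
  have hPt : Tendsto Pn F (𝓝 P) := hP
  have hνt : Tendsto νn F (𝓝 ν) := hν
  have clP : ∀ B : Set (Arr r), IsClopen B →
      Tendsto (fun n => (Pn n : Measure (Arr r)) B) F (𝓝 ((P : Measure (Arr r)) B)) := by
    intro B hB
    exact ProbabilityMeasure.tendsto_measure_of_null_frontier_of_tendsto' hPt
      (by rw [hB.frontier_eq]; exact measure_empty)
  have clν : ∀ B : Set (Arr r), IsClopen B →
      Tendsto (fun n => (νn n : Measure (Arr r)) B) F (𝓝 ((ν : Measure (Arr r)) B)) := by
    intro B hB
    exact ProbabilityMeasure.tendsto_measure_of_null_frontier_of_tendsto' hνt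
      (by rw [hB.frontier_eq]; exact measure_empty)
  have hcoord : ∀ (s : Fin r → ℕ) (b : Bool), IsClopen {R : Arr r | R s = b} := by
    intro s b
    exact (isClopen_discrete ({b} : Set Bool)).preimage (continuous_apply s)
  -- invariance
  have hshc : ∀ σ : ℕ → ℕ, Continuous (shift (r := r) σ) := by
    intro σ
    exact continuous_pi fun s => continuous_apply (σ ∘ s)
  have inv : ∀ σ : ℕ → ℕ, Function.Injective σ →
      (P : Measure (Arr r)).map (shift σ) = (P : Measure (Arr r)) := by
    intro σ hσ
    have : IsFiniteMeasure ((P : Measure (Arr r)).map (shift σ)) :=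
      Measure.isFiniteMeasure_map _ _
    have hgen : (MeasurableSpace.pi : MeasurableSpace (Arr r))
        = MeasurableSpace.generateFrom (measurableCylinders fun _ : (Fin r → ℕ) => Bool) :=
      generateFrom_measurableCylinders.symm
    refine ext_of_generate_finite _ hgen isPiSystem_measurableCylinders ?_ ?_
    · intro B hB
      have hBm : MeasurableSet B := by
        rw [hgen]; exact MeasurableSpace.measurableSet_generateFrom hB
      have hBc : IsClopen B := by
        rw [mem_measurableCylinders] at hB
        obtain ⟨I, S, _, rfl⟩ := hB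
        refine (isClopen_discrete S).preimage ?_
        fun_prop
      rw [Measure.map_apply (measurable_shift σ) hBm]
      have h1 := clP _ (hBc.preimage (hshc σ))
      have h2 := clP _ hBc
      refine tendsto_nhds_unique h1 (h2.congr fun n => ?_)
      conv_lhs => rw [← hinv n σ hσ]
      rw [Measure.map_apply (measurable_shift σ) hBm]
    · rw [Measure.map_apply (measurable_shift σ) MeasurableSet.univ]
      simp
  -- domination
  have dom : ∀ t : Fin r ↪o Fin m, ∀ A, MeasurableSet[Alg (U m (rg t))] A →
      (ν : Measure (Arr r)) A ≤ C * (P : Measure (Arr r)) A := by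
    intro t
    refine dom_ext hC fun B hB => ?_
    have hc := cyl_clopen hB
    have hBm : MeasurableSet B := by
      have hgen : (MeasurableSpace.pi : MeasurableSpace (↥(U (r := r) m (rg t)) → Bool))
        = MeasurableSpace.generateFrom (measurableCylinders fun _ => Bool) :=
        generateFrom_measurableCylinders.symm
      rw [hgen]; exact MeasurableSpace.measurableSet_generateFrom hB
    refine le_of_tendsto_of_tendsto' (clν _ hc)
      (ENNReal.Tendsto.const_mul (clP _ hc) (Or.inr hC)) fun n => ?_
    exact hdom n t _ (meas_res _ hBm)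
  -- conclusion
  refine descent (m := m) hC inv dom hr (r + 1) le_rfl ?_
  refine ⟨fun t => {R | R (fun a => (t a : ℕ)) = true}, ?_, ?_, ?_⟩
  · intro t
    refine (meas_eval (s := fun a => (t a : ℕ)) ?_) (measurableSet_singleton true)
    refine ⟨Or.inl ?_, ?_⟩
    · show (tr m (fun a => (t a : ℕ))).card < r + 1
      have : (tr m (fun a => (t a : ℕ))).card ≤ r := by
        refine (Finset.card_filter_le _ _).trans ?_
        refine Finset.card_image_le.trans ?_
        simp
      omega
    · intro a
      exact Or.inl (Finset.mem_image.2 ⟨a, Finset.mem_univ _, rfl⟩)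
  · have hc : IsClopen (⋂ t : Fin r ↪o Fin m, {R : Arr r | R (fun a => (t a : ℕ)) = true}) :=
      isClopen_iInter_of_finite fun t => hcoord _ _
    exact tendsto_nhds_unique (clP _ hc) (hzero.mono_left hFle)
  · have h1 : (ν : Measure (Arr r))
        (⋂ t : Fin r ↪o Fin m, {R : Arr r | R (fun a => (t a : ℕ)) = true})ᶜ = 0 := by
      rw [Set.compl_iInter]
      rw [measure_iUnion_null_iff]
      intro t
      have h2 : ({R : Arr r | R (fun a => (t a : ℕ)) = true})ᶜ
          = {R : Arr r | R (fun a => (t a : ℕ)) = false} := by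
        ext R; simp
      rw [h2]
      have h3 := clν _ (hcoord (fun a => (t a : ℕ)) false)
      refine tendsto_nhds_unique h3 ?_
      simp only [hone]
      exact tendsto_const_nhds
    intro h2
    have h3 : (ν : Measure (Arr r)) Set.univ = 0 := by
      rw [← Set.union_compl_self
        (⋂ t : Fin r ↪o Fin m, {R : Arr r | R (fun a => (t a : ℕ)) = true})]
      exact measure_union_null h2 h1
    rw [measure_univ] at h3
    exact one_ne_zero h3

end Pool.Agent.H452R3.HR
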