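import Pool.Agent.H452R3.HR.Limit

set_option autoImplicit false
set_option linter.unusedSectionVars false
open MeasureTheory Set Filter Topology
open scoped ENNReal

namespace Pool.Agent.H452R3.HR

variable {r m : ℕ}

lemma meas_coord (s : Fin r → ℕ) (b : Bool) : MeasurableSet {R : Arr r | R s = b} := by
  have h : Measurable (fun R : Arr r => R s) := measurable_pi_apply s
  exact h (measurableSet_singleton b)

section

variable {Ω : Type} [MeasurableSpace Ω]

open Classical in
/-- the array of a sequence of points -/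
noncomputable def Phi (E : Set (Fin r → Ω)) (x : ℕ → Ω) : Arr r := fun s => decide (x ∘ s ∈ E)

lemma Phi_true {E : Set (Fin r → Ω)} {x : ℕ → Ω} {s : Fin r → ℕ} :
    Phi E x s = true ↔ x ∘ s ∈ E := by simp [Phi]

lemma Phi_false {E : Set (Fin r → Ω)} {x : ℕ → Ω} {s : Fin r → ℕ} :
    Phi E x s = false ↔ x ∘ s ∉ E := by simp [Phi]

lemma measurable_Phi {E : Set (Fin r → Ω)} (hE : MeasurableSet E) : Measurable (Phi E) := by
  refine measurable_pi_lambda _ fun s => ?_
  refine measurable_to_bool ?_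
  have : (fun x : ℕ → Ω => Phi E x s) ⁻¹' {true} = (fun x : ℕ → Ω => x ∘ s) ⁻¹' E := by
    ext x
    simp [Phi]
  rw [this]
  refine (measurable_pi_lambda _ fun a => ?_) hE
  exact measurable_pi_apply (s a)

/-- gluing a finite family with a sequence -/
def join (p : (Fin m → Ω) × (ℕ → Ω)) : ℕ → Ω := fun i => if h : i < m then p.1 ⟨i, h⟩ else p.2 i

lemma measurable_join : Measurable (join (m := m) (Ω := Ω)) := by
  refine measurable_pi_lambda _ fun i => ?_
  unfold join
  by_cases h : i < m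
  · simp only [h, dif_pos]
    exact (measurable_pi_apply _).comp measurable_fst
  · simp only [h, dif_neg, not_false_iff]
    exact (measurable_pi_apply _).comp measurable_snd

open Classical in
/-- index map -/
noncomputable def hh (t : Fin r ↪o Fin m) (i : ℕ) : Fin r ⊕ ℕ :=
  if h : ∃ a, (t a : ℕ) = i then Sum.inl h.choose else Sum.inr i

lemma hh_inj (t : Fin r ↪o Fin m) : Function.Injective (hh t) := by
  intro i j h
  unfold hh at h
  split_ifs at h with h1 h2 h2
  · have := Sum.inl_injective h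
    rw [← h1.choose_spec, ← h2.choose_spec, this]
  · exact Sum.inr_injective h

/-- gluing of `r` points with a sequence -/
noncomputable def gg (t : Fin r ↪o Fin m) (p : (Fin r → Ω) × (ℕ → Ω)) : ℕ → Ω :=
  fun i => (Sum.elim p.1 p.2 : Fin r ⊕ ℕ → Ω) (hh t i)

lemma measurable_sumElim : Measurable
    (fun p : (Fin r → Ω) × (ℕ → Ω) => (Sum.elim p.1 p.2 : Fin r ⊕ ℕ → Ω)) := by
  refine measurable_pi_lambda _ fun i => ?_
  rcases i with a | i
  · exact (measurable_pi_apply a).comp measurable_fst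
  · exact (measurable_pi_apply i).comp measurable_snd

lemma measurable_gg (t : Fin r ↪o Fin m) : Measurable (gg (Ω := Ω) t) := by
  refine measurable_pi_lambda _ fun i => ?_
  exact (measurable_pi_apply (hh t i)).comp measurable_sumElim

lemma map_sumElim (μ : Measure Ω) [IsProbabilityMeasure μ] :
    ((Measure.pi fun _ : Fin r => μ).prod (Measure.infinitePi fun _ : ℕ => μ)).map
      (fun p => (Sum.elim p.1 p.2 : Fin r ⊕ ℕ → Ω)) = Measure.infinitePi fun _ => μ := by
  classical
  refine Measure.eq_infinitePi (fun _ : Fin r ⊕ ℕ => μ) fun s B hB => ?_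
  rw [Measure.map_apply measurable_sumElim
    (MeasurableSet.pi s.countable_toSet fun i _ => hB i)]
  have h1 : (fun p : (Fin r → Ω) × (ℕ → Ω) => (Sum.elim p.1 p.2 : Fin r ⊕ ℕ → Ω)) ⁻¹'
      (Set.pi s B) = (Set.pi (s.toLeft : Set (Fin r)) fun a => B (Sum.inl a)) ×ˢ
        (Set.pi (s.toRight : Set ℕ) fun i => B (Sum.inr i)) := by
    ext p
    simp only [Set.mem_preimage, Set.mem_pi, Set.mem_prod, Finset.mem_coe, Finset.mem_toLeft,
      Finset.mem_toRight]
    constructor
    · intro h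
      exact ⟨fun a ha => h _ ha, fun i hi => h _ hi⟩
    · rintro ⟨h1, h2⟩ i hi
      rcases i with a | i
      · exact h1 a hi
      · exact h2 i hi
  rw [h1, Measure.prod_prod, ← Measure.infinitePi_eq_pi,
    Measure.infinitePi_pi _ (fun i _ => hB _), Measure.infinitePi_pi _ (fun i _ => hB _),
    Finset.prod_sum_eq_prod_toLeft_mul_prod_toRight]

lemma map_gg (t : Fin r ↪o Fin m) (μ : Measure Ω) [IsProbabilityMeasure μ] :
    ((Measure.pi fun _ : Fin r => μ).prod (Measure.infinitePi fun _ : ℕ => μ)).map (gg t)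
      = Measure.infinitePi fun _ => μ := by
  have h1 : (gg (Ω := Ω) t) = (fun (z : Fin r ⊕ ℕ → Ω) i => z (hh t i)) ∘
      (fun p => (Sum.elim p.1 p.2 : Fin r ⊕ ℕ → Ω)) := rfl
  have hm : Measurable (fun (z : Fin r ⊕ ℕ → Ω) i => z (hh t i)) :=
    measurable_pi_lambda _ fun i => measurable_pi_apply _
  rw [h1, ← Measure.map_map hm measurable_sumElim, map_sumElim]
  exact Measure.map_infinitePi_infinitePi_of_inj (P := fun _ => μ) (hh_inj t)

lemma agree (E : Set (Fin r → Ω)) (t : Fin r ↪o Fin m) (x : Fin m → Ω) (y : ℕ → Ω)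
    {s : Fin r → ℕ} (hs : s ∈ U m (rg t)) :
    Phi E (join (x, y)) s = Phi E (gg t (x ∘ t, y)) s := by
  have : join (x, y) ∘ s = gg t (x ∘ t, y) ∘ s := by
    funext a
    simp only [Function.comp, join, gg, hh]
    rcases hs a with h | h
    · obtain ⟨b, _, hb⟩ := Finset.mem_image.1 h
      have h1 : ∃ b, (t b : ℕ) = s a := ⟨b, hb⟩
      have h2 : s a < m := by rw [← hb]; exact (t b).2
      rw [dif_pos h2, dif_pos h1]
      simp only [Sum.elim_inl, Function.comp]
      congr 1
      apply Fin.ext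
      simp only
      exact h1.choose_spec.symm
    · have h1 : ¬ ∃ b, (t b : ℕ) = s a := by
        rintro ⟨b, hb⟩
        have := (t b).2
        omega
      rw [dif_neg (not_lt.2 h), dif_neg h1]
      rfl
  unfold Phi
  rw [this]

end

theorem sample_step {Ω : Type} [MeasurableSpace Ω] (μ : Measure Ω)
    [IsProbabilityMeasure μ] (E : Set (Fin r → Ω)) (hE : MeasurableSet E)
    (ν' : Measure (Fin m → Ω)) [IsProbabilityMeasure ν'] {C : ℝ≥0∞}
    (hdom : ∀ t : Fin r ↪o Fin m, ν'.map (fun x => x ∘ t) ≤ C • Measure.pi (fun _ => μ))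
    (hone : ∀ t : Fin r ↪o Fin m, ν' {x | x ∘ t ∉ E} = 0) :
    ∃ P ν : ProbabilityMeasure (Arr r),
      (∀ σ : ℕ → ℕ, Function.Injective σ →
        (P : Measure (Arr r)).map (shift σ) = (P : Measure (Arr r))) ∧
      (∀ t : Fin r ↪o Fin m, ∀ A, MeasurableSet[Alg (U m (rg t))] A →
        (ν : Measure (Arr r)) A ≤ C * (P : Measure (Arr r)) A) ∧
      (∀ t : Fin r ↪o Fin m,
        (ν : Measure (Arr r)) {R | R (fun a => (t a : ℕ)) = false} = 0) ∧
      (P : Measure (Arr r)) (⋂ t : Fin r ↪o Fin m, {R | R (fun a => (t a : ℕ)) = true})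
        = Measure.pi (fun _ : Fin m => μ) {x | ∀ t : Fin r ↪o Fin m, x ∘ t ∈ E} := by
  classical
  set ρ : Measure (ℕ → Ω) := Measure.infinitePi fun _ : ℕ => μ with hρ
  have hΦ := measurable_Phi hE
  have pP : IsProbabilityMeasure (ρ.map (Phi E)) := Measure.isProbabilityMeasure_map hΦ.aemeasurable
  have hj : Measurable (fun p : (Fin m → Ω) × (ℕ → Ω) => Phi E (join p)) :=
    hΦ.comp measurable_join
  have pν : IsProbabilityMeasure ((ν'.prod ρ).map (fun p => Phi E (join p))) :=
    Measure.isProbabilityMeasure_map hj.aemeasurable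
  refine ⟨⟨ρ.map (Phi E), pP⟩, ⟨(ν'.prod ρ).map (fun p => Phi E (join p)), pν⟩, ?_, ?_, ?_, ?_⟩
  · intro σ hσ
    show (ρ.map (Phi E)).map (shift σ) = ρ.map (Phi E)
    rw [Measure.map_map (measurable_shift σ) hΦ]
    have h1 : shift σ ∘ Phi E = Phi E ∘ (fun (x : ℕ → Ω) i => x (σ i)) := by
      funext x s
      rfl
    have hm : Measurable (fun (x : ℕ → Ω) i => x (σ i)) :=
      measurable_pi_lambda _ fun i => measurable_pi_apply _
    rw [h1, ← Measure.map_map hΦ hm]
    congr 1
    exact Measure.map_infinitePi_infinitePi_of_inj (P := fun _ => μ) hσ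
  · intro t A hA
    have hA0 : MeasurableSet A := Alg_le _ _ hA
    show (ν'.prod ρ).map (fun p => Phi E (join p)) A ≤ C * ρ.map (Phi E) A
    have hg : Measurable (fun p : (Fin r → Ω) × (ℕ → Ω) => Phi E (gg t p)) :=
      hΦ.comp (measurable_gg t)
    have hcomp : Measurable (fun x : Fin m → Ω => x ∘ t) :=
      measurable_pi_lambda _ fun a => measurable_pi_apply _
    have h1 : (fun p : (Fin m → Ω) × (ℕ → Ω) => Phi E (join p)) ⁻¹' A
        = (Prod.map (fun x : Fin m → Ω => x ∘ t) id) ⁻¹'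
          ((fun p : (Fin r → Ω) × (ℕ → Ω) => Phi E (gg t p)) ⁻¹' A) := by
      ext p
      simp only [Set.mem_preimage]
      exact Alg_congr hA fun s hs => agree E t p.1 p.2 hs
    rw [Measure.map_apply hj hA0, h1]
    have hS : MeasurableSet ((fun p : (Fin r → Ω) × (ℕ → Ω) => Phi E (gg t p)) ⁻¹' A) :=
      hg hA0
    rw [← Measure.map_apply (hcomp.prodMap measurable_id) hS]
    have h2 : (ν'.prod ρ).map (Prod.map (fun x : Fin m → Ω => x ∘ t) id)
        = (ν'.map (fun x => x ∘ t)).prod ρ := by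
      have := Measure.map_prod_map ν' ρ hcomp measurable_id
      rw [Measure.map_id] at this
      exact this.symm
    rw [h2]
    have h3 : ((ν'.map (fun x => x ∘ t)).prod ρ)
        ((fun p : (Fin r → Ω) × (ℕ → Ω) => Phi E (gg t p)) ⁻¹' A)
        ≤ C * ((Measure.pi (fun _ : Fin r => μ)).prod ρ)
          ((fun p : (Fin r → Ω) × (ℕ → Ω) => Phi E (gg t p)) ⁻¹' A) := by
      rw [Measure.prod_apply hS, Measure.prod_apply hS]
      calc _ ≤ ∫⁻ x, ρ (Prod.mk x ⁻¹'
            ((fun p : (Fin r → Ω) × (ℕ → Ω) => Phi E (gg t p)) ⁻¹' A))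
            ∂(C • Measure.pi (fun _ : Fin r => μ)) := lintegral_mono' (hdom t) le_rfl
        _ = _ := by rw [lintegral_smul_measure]; rfl
    refine h3.trans_eq ?_
    congr 1
    have h4 : Measure.map (Phi E) ρ
        = ((Measure.pi fun _ : Fin r => μ).prod ρ).map (fun p => Phi E (gg t p)) := by
      have : (fun p : (Fin r → Ω) × (ℕ → Ω) => Phi E (gg t p)) = Phi E ∘ gg t := rfl
      rw [this, ← Measure.map_map hΦ (measurable_gg t), map_gg]
    rw [h4, Measure.map_apply hg hA0]
  · intro t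
    show (ν'.prod ρ).map (fun p => Phi E (join p)) {R | R (fun a => (t a : ℕ)) = false} = 0
    have hm : MeasurableSet {R : Arr r | R (fun a => (t a : ℕ)) = false} := meas_coord _ _
    rw [Measure.map_apply hj hm]
    have h1 : (fun p : (Fin m → Ω) × (ℕ → Ω) => Phi E (join p)) ⁻¹'
        {R | R (fun a => (t a : ℕ)) = false} = {x | x ∘ t ∉ E} ×ˢ Set.univ := by
      ext p
      have h2 : join p ∘ (fun a => (t a : ℕ)) = p.1 ∘ t := by
        funext a
        simp [join]
      have h3 : Phi E (join p) (fun a => (t a : ℕ)) = false ↔ p.1 ∘ t ∉ E := by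
        rw [Phi_false, h2]
      constructor
      · intro h
        exact ⟨h3.1 h, trivial⟩
      · intro h
        exact h3.2 h.1
    rw [h1, Measure.prod_prod, hone t, zero_mul]
  · show ρ.map (Phi E) (⋂ t : Fin r ↪o Fin m, {R | R (fun a => (t a : ℕ)) = true}) = _
    have hm : MeasurableSet
        (⋂ t : Fin r ↪o Fin m, {R : Arr r | R (fun a => (t a : ℕ)) = true}) :=
      MeasurableSet.iInter fun t => meas_coord _ _
    rw [Measure.map_apply hΦ hm]
    have h0 : Measure.pi (fun _ : Fin m => μ)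
        = ρ.map (fun (x : ℕ → Ω) (i : Fin m) => x (i : ℕ)) := by
      rw [← Measure.infinitePi_eq_pi]
      exact (Measure.map_infinitePi_infinitePi_of_inj (P := fun _ => μ)
        (f := fun i : Fin m => (i : ℕ)) Fin.val_injective).symm
    have hm2 : MeasurableSet {x : Fin m → Ω | ∀ t : Fin r ↪o Fin m, x ∘ t ∈ E} := by
      have : {x : Fin m → Ω | ∀ t : Fin r ↪o Fin m, x ∘ t ∈ E}
          = ⋂ t : Fin r ↪o Fin m, (fun x : Fin m → Ω => x ∘ t) ⁻¹' E := by
        ext x; simp
      rw [this]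
      refine MeasurableSet.iInter fun t => ?_
      exact (measurable_pi_lambda _ fun a => measurable_pi_apply _) hE
    have hmm : Measurable (fun (x : ℕ → Ω) (i : Fin m) => x (i : ℕ)) :=
      measurable_pi_lambda _ fun i => measurable_pi_apply _
    rw [h0, Measure.map_apply hmm hm2]
    congr 1
    ext x
    simp only [Set.mem_preimage, Set.mem_iInter]
    refine forall_congr' fun t => ?_
    exact Phi_true

/-- fractional removal lemma for complete `r`-uniform hypergraphs on `m` vertices -/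
theorem frac_removal (r m : ℕ) (hr : r ≤ m) (C : ℝ≥0∞) (hC : C ≠ ⊤) :
    ∃ c : ℝ≥0∞, 0 < c ∧ ∀ (Ω : Type) [MeasurableSpace Ω] (μ : Measure Ω)
      [IsProbabilityMeasure μ] (E : Set (Fin r → Ω)), MeasurableSet E →
      ∀ (ν' : Measure (Fin m → Ω)) [IsProbabilityMeasure ν'],
      (∀ t : Fin r ↪o Fin m, ν'.map (fun x => x ∘ t) ≤ C • Measure.pi (fun _ => μ)) →
      (∀ t : Fin r ↪o Fin m, ν' {x | x ∘ t ∉ E} = 0) →
      c ≤ Measure.pi (fun _ : Fin m => μ) {x | ∀ t : Fin r ↪o Fin m, x ∘ t ∈ E} := by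
  by_contra hcon
  push Not at hcon
  have key : ∀ n : ℕ, ∃ P ν : ProbabilityMeasure (Arr r),
      (∀ σ : ℕ → ℕ, Function.Injective σ →
        (P : Measure (Arr r)).map (shift σ) = (P : Measure (Arr r))) ∧
      (∀ t : Fin r ↪o Fin m, ∀ A, MeasurableSet[Alg (U m (rg t))] A →
        (ν : Measure (Arr r)) A ≤ C * (P : Measure (Arr r)) A) ∧
      (∀ t : Fin r ↪o Fin m,
        (ν : Measure (Arr r)) {R | R (fun a => (t a : ℕ)) = false} = 0) ∧
      (P : Measure (Arr r)) (⋂ t : Fin r ↪o Fin m, {R | R (fun a => (t a : ℕ)) = true})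
        ≤ ((n : ℝ≥0∞) + 1)⁻¹ := by
    intro n
    obtain ⟨Ω, i1, μ, i2, E, hE, ν', i3, hd, ho, hlt⟩ := hcon ((n : ℝ≥0∞) + 1)⁻¹ (by simp)
    obtain ⟨P, ν, h1, h2, h3, h4⟩ := sample_step μ E hE ν' hd ho
    exact ⟨P, ν, h1, h2, h3, h4 ▸ hlt.le⟩
  choose Pn νn h1 h2 h3 h4 using key
  refine limit_contra (m := m) hr hC Pn νn h1 h2 h3 ?_
  refine tendsto_of_tendsto_of_tendsto_of_le_of_le tendsto_const_nhds ?_ (fun n => zero_le) h4
  have : Tendsto (fun n : ℕ => ((n : ℝ≥0∞) + 1)) atTop (𝓝 ⊤) := by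
    have h5 : Tendsto (fun n : ℕ => ((n + 1 : ℕ) : ℝ≥0∞)) atTop (𝓝 ⊤) :=
      ENNReal.tendsto_nat_nhds_top.comp (tendsto_add_atTop_nat 1)
    simpa using h5
  have h6 := tendsto_inv_iff.2 this
  simpa using h6

end Pool.Agent.H452R3.HR
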